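import Pool.Agent.K4H71.Go.Class

/-!
# Assembling tiles separated by black lines

The `n × n` board is cut into `q × q` tiles of size `M × M` with period `M + 1`; the lines between the
tiles are black and run into an empty region at the far sides.  Moves inside a tile do not affect the
rest of the board.
-/

set_option autoImplicit false

namespace Pool.Agent.K4H71.Go

open Relation Finset

variable {M q n : ℕ}

/-- The assembled position. -/
def asm (u : Fin q × Fin q → Position M) : Position n := fun P =>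
  if h : (P.1 : ℕ) < (M + 1) * q ∧ (P.2 : ℕ) < (M + 1) * q then
    if h2 : (P.1 : ℕ) % (M + 1) < M ∧ (P.2 : ℕ) % (M + 1) < M then
      u (⟨(P.1 : ℕ) / (M + 1), Nat.div_lt_of_lt_mul h.1⟩,
          ⟨(P.2 : ℕ) / (M + 1), Nat.div_lt_of_lt_mul h.2⟩)
        (⟨(P.1 : ℕ) % (M + 1), h2.1⟩, ⟨(P.2 : ℕ) % (M + 1), h2.2⟩)
    else some .black
  else none

theorem coord_lt {i x : ℕ} (hi : i < q) (hx : x ≤ M) : (M + 1) * i + x < (M + 1) * q := by
  calc (M + 1) * i + x < (M + 1) * (i + 1) := by rw [Nat.mul_add, Nat.mul_one]; omega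
    _ ≤ (M + 1) * q := Nat.mul_le_mul_left _ hi

/-- The point `p` of the tile `T` as a point of the board. -/
def cell (hn : (M + 1) * q < n) (T : Fin q × Fin q) (p : Point M) : Point n :=
  (⟨(M + 1) * T.1 + p.1, (coord_lt T.1.2 p.1.2.le).trans hn⟩,
    ⟨(M + 1) * T.2 + p.2, (coord_lt T.2.2 p.2.2.le).trans hn⟩)

/-- The points of the lines between tiles. -/
def Frame (M q : ℕ) (P : Point n) : Prop :=
  ((P.1 : ℕ) < (M + 1) * q ∧ (P.2 : ℕ) < (M + 1) * q) ∧
    ((P.1 : ℕ) % (M + 1) = M ∨ (P.2 : ℕ) % (M + 1) = M)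

theorem div_cell {i x : ℕ} (hx : x < M + 1) : ((M + 1) * i + x) / (M + 1) = i := by
  rw [Nat.mul_add_div (by omega), Nat.div_eq_of_lt hx, Nat.add_zero]

theorem mod_cell {i x : ℕ} (hx : x < M + 1) : ((M + 1) * i + x) % (M + 1) = x := by
  rw [Nat.mul_add_mod, Nat.mod_eq_of_lt hx]

theorem asm_cell (hn : (M + 1) * q < n) (u : Fin q × Fin q → Position M) (T : Fin q × Fin q)
    (p : Point M) : (asm u : Position n) (cell hn T p) = u T p := by
  have a1 : ((cell hn T p).1 : ℕ) = (M + 1) * T.1 + p.1 := rfl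
  have a2 : ((cell hn T p).2 : ℕ) = (M + 1) * T.2 + p.2 := rfl
  have b1 := p.1.2
  have b2 := p.2.2
  have c1 : ((cell hn T p).1 : ℕ) / (M + 1) = T.1 := by rw [a1]; exact div_cell (by omega)
  have c2 : ((cell hn T p).2 : ℕ) / (M + 1) = T.2 := by rw [a2]; exact div_cell (by omega)
  have d1 : ((cell hn T p).1 : ℕ) % (M + 1) = p.1 := by rw [a1]; exact mod_cell (by omega)
  have d2 : ((cell hn T p).2 : ℕ) % (M + 1) = p.2 := by rw [a2]; exact mod_cell (by omega)
  unfold asm
  rw [dif_pos ⟨by rw [a1]; exact coord_lt T.1.2 b1.le, by rw [a2]; exact coord_lt T.2.2 b2.le⟩,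
    dif_pos ⟨by omega, by omega⟩]
  exact congr (congrArg u (Prod.ext (Fin.ext c1) (Fin.ext c2))) (Prod.ext (Fin.ext d1) (Fin.ext d2))

theorem asm_frame (u : Fin q × Fin q → Position M) {P : Point n} (h : Frame M q P) :
    (asm u : Position n) P = some .black := by
  unfold asm
  rw [dif_pos h.1, dif_neg]
  rintro ⟨h1, h2⟩
  rcases h.2 with h3 | h3 <;> omega

theorem asm_out (u : Fin q × Fin q → Position M) {P : Point n}
    (h : ¬ ((P.1 : ℕ) < (M + 1) * q ∧ (P.2 : ℕ) < (M + 1) * q)) :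
    (asm u : Position n) P = none := by
  unfold asm
  rw [dif_neg h]

theorem trichotomy (hn : (M + 1) * q < n) (P : Point n) :
    (∃ T p, P = cell hn T p) ∨ Frame M q P ∨
      ¬ ((P.1 : ℕ) < (M + 1) * q ∧ (P.2 : ℕ) < (M + 1) * q) := by
  by_cases h : (P.1 : ℕ) < (M + 1) * q ∧ (P.2 : ℕ) < (M + 1) * q
  · by_cases h2 : (P.1 : ℕ) % (M + 1) < M ∧ (P.2 : ℕ) % (M + 1) < M
    · left
      refine ⟨(⟨(P.1 : ℕ) / (M + 1), Nat.div_lt_of_lt_mul h.1⟩,
          ⟨(P.2 : ℕ) / (M + 1), Nat.div_lt_of_lt_mul h.2⟩),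
        (⟨(P.1 : ℕ) % (M + 1), h2.1⟩, ⟨(P.2 : ℕ) % (M + 1), h2.2⟩), ?_⟩
      refine Prod.ext (Fin.ext ?_) (Fin.ext ?_)
      · exact (Nat.div_add_mod _ _).symm
      · exact (Nat.div_add_mod _ _).symm
    · right; left
      have g1 := Nat.mod_lt (P.1 : ℕ) (show 0 < M + 1 by omega)
      have g2 := Nat.mod_lt (P.2 : ℕ) (show 0 < M + 1 by omega)
      refine ⟨h, ?_⟩
      by_contra hcon
      push Not at hcon
      exact h2 ⟨by omega, by omega⟩
  · right; right; exact h

theorem line_step {i x d : ℕ} (hi : i < q) (hx : x < M)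
    (h : (M + 1) * i + x + 1 = d ∨ d + 1 = (M + 1) * i + x) :
    (∃ x', x' < M ∧ (x + 1 = x' ∨ x' + 1 = x) ∧ d = (M + 1) * i + x') ∨
      (d < (M + 1) * q ∧ d % (M + 1) = M ∧ (x = 0 ∨ x + 1 = M)) := by
  rcases h with h | h
  · by_cases h1 : x + 1 < M
    · left; exact ⟨x + 1, h1, Or.inl rfl, by omega⟩
    · right
      have h2 : d = (M + 1) * i + M := by omega
      refine ⟨by rw [h2]; exact coord_lt hi le_rfl, by rw [h2]; exact mod_cell (by omega),
        Or.inr (by omega)⟩
  · by_cases h1 : x = 0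
    · right
      subst h1
      obtain ⟨j, rfl⟩ : ∃ j, i = j + 1 := by
        cases i with
        | zero => simp at h
        | succ j => exact ⟨j, rfl⟩
      have h2 : d = (M + 1) * j + M := by
        have : (M + 1) * (j + 1) = (M + 1) * j + (M + 1) := by ring
        omega
      refine ⟨by rw [h2]; exact coord_lt (by omega) le_rfl, by rw [h2]; exact mod_cell (by omega),
        Or.inl rfl⟩
    · left; exact ⟨x - 1, by omega, Or.inr (by omega), by omega⟩

theorem adj_cell (hn : (M + 1) * q < n) {T : Fin q × Fin q} {p : Point M} {P : Point n}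
    (h : Adj (cell hn T p) P) :
    (∃ p', Adj p p' ∧ P = cell hn T p') ∨ (Frame M q P ∧ ¬ In p) := by
  rcases h with ⟨h1, h2⟩ | ⟨h1, h2⟩
  · have e1 : (M + 1) * (T.1 : ℕ) + p.1 = P.1 := congrArg Fin.val h1
    have l1 : (P.1 : ℕ) < (M + 1) * q := by rw [← e1]; exact coord_lt T.1.2 p.1.2.le
    rcases line_step (q := q) T.2.2 p.2.2 (d := P.2) h2 with ⟨x', g1, g2, g3⟩ | ⟨g1, g2, g3⟩
    · left
      exact ⟨(p.1, ⟨x', g1⟩), Or.inl ⟨rfl, g2⟩, Prod.ext (Fin.ext e1.symm) (Fin.ext g3)⟩
    · right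
      refine ⟨⟨⟨l1, g1⟩, Or.inr g2⟩, ?_⟩
      rintro ⟨_, _, f1, f2⟩
      omega
  · have e1 : (M + 1) * (T.2 : ℕ) + p.2 = P.2 := congrArg Fin.val h1
    have l1 : (P.2 : ℕ) < (M + 1) * q := by rw [← e1]; exact coord_lt T.2.2 p.2.2.le
    rcases line_step (q := q) T.1.2 p.1.2 (d := P.1) h2 with ⟨x', g1, g2, g3⟩ | ⟨g1, g2, g3⟩
    · left
      exact ⟨(⟨x', g1⟩, p.2), Or.inr ⟨rfl, g2⟩, Prod.ext (Fin.ext g3) (Fin.ext e1.symm)⟩
    · right
      refine ⟨⟨⟨g1, l1⟩, Or.inl g2⟩, ?_⟩
      rintro ⟨f1, f2, _, _⟩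
      omega

theorem cell_adj (hn : (M + 1) * q < n) (T : Fin q × Fin q) {p p' : Point M} (h : Adj p p') :
    Adj (cell hn T p) (cell hn T p') := by
  rcases h with ⟨h1, h2⟩ | ⟨h1, h2⟩
  · left
    refine ⟨Fin.ext ?_, ?_⟩
    · simp only [cell]; rw [h1]
    · simp only [cell]; omega
  · right
    refine ⟨Fin.ext ?_, ?_⟩
    · simp only [cell]; rw [h1]
    · simp only [cell]; omega

theorem liberty_cell (hn : (M + 1) * q < n) {u : Fin q × Fin q → Position M} {T : Fin q × Fin q}
    (hu : Good (u T)) (p : Point M) :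
    HasLiberty (asm u : Position n) (cell hn T p) ↔ HasLiberty (u T) p := by
  constructor
  · rintro ⟨Q, R, h1, h2, h3⟩
    have key : ∀ z, SameString (asm u : Position n) (cell hn T p) z →
        ∃ p', z = cell hn T p' ∧ SameString (u T) p p' := by
      intro z hz
      induction hz with
      | refl => exact ⟨p, rfl, .refl⟩
      | @tail a b _ hab ih =>
        obtain ⟨p', rfl, k2⟩ := ih
        rcases adj_cell hn hab.1 with ⟨p'', g1, rfl⟩ | ⟨g1, g2⟩
        · refine ⟨p'', rfl, k2.tail ⟨g1, ?_⟩⟩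
          have := hab.2
          rwa [asm_cell, asm_cell] at this
        · exfalso
          have h4 := hab.2
          rw [asm_cell, asm_frame u g1] at h4
          exact g2 (hu p' h4)
    obtain ⟨p', rfl, k2⟩ := key Q h1
    rcases adj_cell hn h2 with ⟨p'', g1, rfl⟩ | ⟨g1, g2⟩
    · rw [asm_cell] at h3
      exact ⟨p', p'', k2, g1, h3⟩
    · rw [asm_frame u g1] at h3
      exact absurd h3 (by simp)
  · intro h
    exact HasLiberty.map (cell hn T) (fun _ _ => cell_adj hn T) (asm_cell hn u T) h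

theorem liberty_frame (hn : (M + 1) * q < n) (u : Fin q × Fin q → Position M) {P : Point n}
    (h : Frame M q P) : HasLiberty (asm u : Position n) P := by
  obtain ⟨⟨h1, h2⟩, h3 | h3⟩ := h
  · have key : ∀ k : ℕ, ∀ P : Point n, (P.1 : ℕ) < (M + 1) * q → (P.1 : ℕ) % (M + 1) = M →
        (P.2 : ℕ) + (k + 1) = (M + 1) * q → HasLiberty (asm u : Position n) P := by
      intro k
      induction k with
      | zero =>
        intro P a1 a2 a3
        refine HasLiberty.of_empty (y := (P.1, ⟨(P.2 : ℕ) + 1, by omega⟩))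
          (Or.inl ⟨rfl, Or.inl rfl⟩) (asm_out u ?_)
        simp only; omega
      | succ k ih =>
        intro P a1 a2 a3
        have h4 : (P.2 : ℕ) + 1 < n := by omega
        refine HasLiberty.of_adj (y := (P.1, ⟨(P.2 : ℕ) + 1, h4⟩))
          (Or.inl ⟨rfl, Or.inl rfl⟩) ?_ (ih _ a1 a2 (by simp only; omega))
        rw [asm_frame u (P := P) ⟨⟨a1, by omega⟩, Or.inl a2⟩]
        exact (asm_frame u (P := (P.1, ⟨(P.2 : ℕ) + 1, h4⟩))
          ⟨⟨a1, by simp only; omega⟩, Or.inl a2⟩).symm
    exact key ((M + 1) * q - P.2 - 1) P h1 h3 (by omega)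
  · have key : ∀ k : ℕ, ∀ P : Point n, (P.2 : ℕ) < (M + 1) * q → (P.2 : ℕ) % (M + 1) = M →
        (P.1 : ℕ) + (k + 1) = (M + 1) * q → HasLiberty (asm u : Position n) P := by
      intro k
      induction k with
      | zero =>
        intro P a1 a2 a3
        refine HasLiberty.of_empty (y := (⟨(P.1 : ℕ) + 1, by omega⟩, P.2))
          (Or.inr ⟨rfl, Or.inl rfl⟩) (asm_out u ?_)
        simp only; omega
      | succ k ih =>
        intro P a1 a2 a3
        have h4 : (P.1 : ℕ) + 1 < n := by omega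
        refine HasLiberty.of_adj (y := (⟨(P.1 : ℕ) + 1, h4⟩, P.2))
          (Or.inr ⟨rfl, Or.inl rfl⟩) ?_ (ih _ a1 a2 (by simp only; omega))
        rw [asm_frame u (P := P) ⟨⟨by omega, a1⟩, Or.inr a2⟩]
        exact (asm_frame u (P := (⟨(P.1 : ℕ) + 1, h4⟩, P.2))
          ⟨⟨by simp only; omega, a1⟩, Or.inr a2⟩).symm
    exact key ((M + 1) * q - P.1 - 1) P h2 h3 (by omega)

theorem clear_asm (hn : (M + 1) * q < n) {u : Fin q × Fin q → Position M} (hu : ∀ T, Good (u T))
    (c : Color) : clear (asm u : Position n) c = asm fun T => clear (u T) c := by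
  funext P
  rcases trichotomy hn P with ⟨T, p, rfl⟩ | h | h
  · rw [asm_cell]
    unfold clear
    rw [asm_cell]
    by_cases hp : u T p = some c
    · have h1 := liberty_cell hn (hu T) p
      by_cases h2 : HasLiberty (u T) p
      · rw [if_neg (fun hh => hh.2 (h1.2 h2)), if_neg (fun hh => hh.2 h2)]
      · rw [if_pos ⟨hp, fun hh => h2 (h1.1 hh)⟩, if_pos ⟨hp, h2⟩]
    · rw [if_neg (fun hh => hp hh.1), if_neg (fun hh => hp hh.1)]
  · rw [clear_of_liberty (liberty_frame hn u h), asm_frame _ h, asm_frame _ h]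
  · rw [(clear_sub _ c).empty (asm_out u h), asm_out _ h]

theorem cell_injective (hn : (M + 1) * q < n) {T T' : Fin q × Fin q} {p p' : Point M}
    (h : cell hn T p = cell hn T' p') : T = T' ∧ p = p' := by
  have h1 : (M + 1) * (T.1 : ℕ) + p.1 = (M + 1) * T'.1 + p'.1 :=
    congrArg (fun P : Point n => (P.1 : ℕ)) h
  have h2 : (M + 1) * (T.2 : ℕ) + p.2 = (M + 1) * T'.2 + p'.2 :=
    congrArg (fun P : Point n => (P.2 : ℕ)) h
  have b1 := p.1.2
  have b2 := p.2.2
  have b3 := p'.1.2
  have b4 := p'.2.2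
  have c1 := div_cell (M := M) (i := T.1) (x := p.1) (by omega)
  have c2 := div_cell (M := M) (i := T.2) (x := p.2) (by omega)
  have c3 := mod_cell (M := M) (i := T.1) (x := p.1) (by omega)
  have c4 := mod_cell (M := M) (i := T.2) (x := p.2) (by omega)
  rw [h1, div_cell (by omega)] at c1
  rw [h2, div_cell (by omega)] at c2
  rw [h1, mod_cell (by omega)] at c3
  rw [h2, mod_cell (by omega)] at c4
  exact ⟨Prod.ext (Fin.ext c1.symm) (Fin.ext c2.symm), Prod.ext (Fin.ext c3.symm) (Fin.ext c4.symm)⟩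

theorem Frame.ne_cell (hn : (M + 1) * q < n) {T : Fin q × Fin q} {p : Point M} :
    ¬ Frame M q (cell hn T p) := by
  rintro ⟨_, h | h⟩
  · rw [show ((cell hn T p).1 : ℕ) = (M + 1) * T.1 + p.1 from rfl,
      mod_cell (by have := p.1.2; omega)] at h
    have := p.1.2
    omega
  · rw [show ((cell hn T p).2 : ℕ) = (M + 1) * T.2 + p.2 from rfl,
      mod_cell (by have := p.2.2; omega)] at h
    have := p.2.2
    omega

theorem update_asm (hn : (M + 1) * q < n) (u : Fin q × Fin q → Position M) (T : Fin q × Fin q)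
    (p : Point M) (v : Option Color) : Function.update (asm u : Position n) (cell hn T p) v =
      asm (Function.update u T (Function.update (u T) p v)) := by
  funext P
  rcases trichotomy hn P with ⟨T', p', rfl⟩ | h | h
  · rw [asm_cell]
    by_cases h1 : T' = T
    · subst h1
      rw [Function.update_self]
      by_cases h2 : p' = p
      · subst h2
        rw [Function.update_self, Function.update_self]
      · rw [Function.update_of_ne h2, Function.update_of_ne, asm_cell]
        intro h3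
        exact h2 (cell_injective hn h3).2
    · rw [Function.update_of_ne h1, Function.update_of_ne, asm_cell]
      intro h3
      exact h1 (cell_injective hn h3).1
  · rw [asm_frame _ h, Function.update_of_ne, asm_frame _ h]
    rintro rfl
    exact Frame.ne_cell hn h
  · rw [asm_out _ h, Function.update_of_ne, asm_out _ h]
    rintro rfl
    exact h ⟨coord_lt T.1.2 p.1.2.le, coord_lt T.2.2 p.2.2.le⟩

theorem move_asm (hn : (M + 1) * q < n) {u : Fin q × Fin q → Position M} (hu : ∀ T, Good (u T))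
    (hl : ∀ T, Legal (u T)) (T : Fin q × Fin q) (p : Point M) (c : Color)
    (hc : c = Color.black → In p) :
    move (asm u : Position n) (cell hn T p) c = asm (Function.update u T (move (u T) p c)) := by
  unfold move
  rw [update_asm]
  set u1 := Function.update u T (Function.update (u T) p (some c)) with hu1
  have hg1 : ∀ S, Good (u1 S) := by
    intro S
    by_cases hS : S = T
    · subst hS; rw [hu1, Function.update_self]; exact (hu S).update hc
    · rw [hu1, Function.update_of_ne hS]; exact hu S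
  rw [clear_asm hn hg1, clear_asm hn (fun S => (hg1 S).of_sub (clear_sub _ _))]
  congr 1
  funext S
  by_cases hS : S = T
  · subst hS
    rw [hu1, Function.update_self, Function.update_self]
  · rw [hu1, Function.update_of_ne hS, Function.update_of_ne hS, clear_of_legal (hl S),
      clear_of_legal (hl S)]

end Pool.Agent.K4H71.Go
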