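import Pool.Agent.K4H71.Go.Class

/-!
# The number of legal positions: comparison of boards of different sizes
-/

set_option autoImplicit false

namespace Pool.Agent.K4H71.Go

open Relation Finset

variable {m q n : ℕ}

/-- Tiling a board with `m × m` positions without gaps. -/
def tile (u : Fin q × Fin q → Position m) : Position n := fun P =>
  if h : (P.1 : ℕ) < m * q ∧ (P.2 : ℕ) < m * q then
    u (⟨(P.1 : ℕ) / m, Nat.div_lt_of_lt_mul h.1⟩, ⟨(P.2 : ℕ) / m, Nat.div_lt_of_lt_mul h.2⟩)
      (⟨(P.1 : ℕ) % m, Nat.mod_lt _ (Nat.pos_of_ne_zero fun h0 => by rw [h0] at h; omega)⟩,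
        ⟨(P.2 : ℕ) % m, Nat.mod_lt _ (Nat.pos_of_ne_zero fun h0 => by rw [h0] at h; omega)⟩)
  else none

theorem coord0_lt {i x : ℕ} (hi : i < q) (hx : x < m) : m * i + x < m * q := by
  calc m * i + x < m * (i + 1) := by rw [Nat.mul_add, Nat.mul_one]; omega
    _ ≤ m * q := Nat.mul_le_mul_left _ hi

/-- The point `p` of the tile `T` as a point of the board. -/
def cell0 (hn : m * q ≤ n) (T : Fin q × Fin q) (p : Point m) : Point n :=
  (⟨m * T.1 + p.1, (coord0_lt T.1.2 p.1.2).trans_le hn⟩,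
    ⟨m * T.2 + p.2, (coord0_lt T.2.2 p.2.2).trans_le hn⟩)

theorem div_cell0 {i x : ℕ} (hx : x < m) : (m * i + x) / m = i := by
  rw [Nat.mul_add_div (by omega), Nat.div_eq_of_lt hx, Nat.add_zero]

theorem mod_cell0 {i x : ℕ} (hx : x < m) : (m * i + x) % m = x := by
  rw [Nat.mul_add_mod, Nat.mod_eq_of_lt hx]

theorem tile_cell (hn : m * q ≤ n) (u : Fin q × Fin q → Position m) (T : Fin q × Fin q)
    (p : Point m) : (tile u : Position n) (cell0 hn T p) = u T p := by
  have a1 : ((cell0 hn T p).1 : ℕ) = m * T.1 + p.1 := rfl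
  have a2 : ((cell0 hn T p).2 : ℕ) = m * T.2 + p.2 := rfl
  have b1 := p.1.2
  have b2 := p.2.2
  have c1 : ((cell0 hn T p).1 : ℕ) / m = T.1 := by rw [a1]; exact div_cell0 b1
  have c2 : ((cell0 hn T p).2 : ℕ) / m = T.2 := by rw [a2]; exact div_cell0 b2
  have d1 : ((cell0 hn T p).1 : ℕ) % m = p.1 := by rw [a1]; exact mod_cell0 b1
  have d2 : ((cell0 hn T p).2 : ℕ) % m = p.2 := by rw [a2]; exact mod_cell0 b2
  unfold tile
  rw [dif_pos ⟨by rw [a1]; exact coord0_lt T.1.2 b1, by rw [a2]; exact coord0_lt T.2.2 b2⟩]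
  exact congr (congrArg u (Prod.ext (Fin.ext c1) (Fin.ext c2))) (Prod.ext (Fin.ext d1) (Fin.ext d2))

theorem cell0_adj (hn : m * q ≤ n) (T : Fin q × Fin q) {p p' : Point m} (h : Adj p p') :
    Adj (cell0 hn T p) (cell0 hn T p') := by
  rcases h with ⟨h1, h2⟩ | ⟨h1, h2⟩
  · left
    refine ⟨Fin.ext ?_, ?_⟩
    · simp only [cell0]; rw [h1]
    · simp only [cell0]; omega
  · right
    refine ⟨Fin.ext ?_, ?_⟩
    · simp only [cell0]; rw [h1]
    · simp only [cell0]; omega

theorem tile_cases (hn : m * q ≤ n) (P : Point n) :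
    (∃ T p, P = cell0 hn T p) ∨ ¬ ((P.1 : ℕ) < m * q ∧ (P.2 : ℕ) < m * q) := by
  by_cases h : (P.1 : ℕ) < m * q ∧ (P.2 : ℕ) < m * q
  · left
    have hm : 0 < m := Nat.pos_of_ne_zero fun h0 => by rw [h0] at h; omega
    refine ⟨(⟨(P.1 : ℕ) / m, Nat.div_lt_of_lt_mul h.1⟩, ⟨(P.2 : ℕ) / m, Nat.div_lt_of_lt_mul h.2⟩),
      (⟨(P.1 : ℕ) % m, Nat.mod_lt _ hm⟩, ⟨(P.2 : ℕ) % m, Nat.mod_lt _ hm⟩), ?_⟩
    refine Prod.ext (Fin.ext ?_) (Fin.ext ?_)
    · exact (Nat.div_add_mod _ _).symm
    · exact (Nat.div_add_mod _ _).symm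
  · right; exact h

theorem tile_legal (hn : m * q ≤ n) (u : Fin q × Fin q → {s : Position m // Legal s}) :
    Legal (tile (fun T => (u T).1) : Position n) := by
  intro P hP
  rcases tile_cases hn P with ⟨T, p, rfl⟩ | h
  · rw [tile_cell] at hP
    exact HasLiberty.map (cell0 hn T) (fun _ _ => cell0_adj hn T) (tile_cell hn _ T)
      ((u T).2 p hP)
  · exfalso
    apply hP
    unfold tile
    rw [dif_neg h]

/-- Supermultiplicativity. -/
theorem numLegal_pow_le (hn : m * q ≤ n) : numLegal m ^ q ^ 2 ≤ numLegal n := by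
  classical
  have h : Function.Injective (fun u : Fin q × Fin q → {s : Position m // Legal s} =>
      (⟨tile (fun T => (u T).1), tile_legal hn u⟩ : {s : Position n // Legal s})) := by
    intro u u' h
    have h1 : (tile (fun T => (u T).1) : Position n) = tile (fun T => (u' T).1) :=
      congrArg (fun z : {s : Position n // Legal s} => z.1) h
    funext T
    apply Subtype.ext
    funext p
    have h2 := congrFun h1 (cell0 hn T p)
    rw [tile_cell, tile_cell] at h2
    exact h2
  have h1 := Nat.card_le_card_of_injective _ h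
  rw [Nat.card_fun, Nat.card_eq_fintype_card (α := Fin q × Fin q), Fintype.card_prod,
    Fintype.card_fin, ← sq] at h1
  exact h1

/-- The content of a point of the plane. -/
def ext (P : Position n) (x y : ℕ) : Option Color :=
  if h : x < n ∧ y < n then P (⟨x, h.1⟩, ⟨y, h.2⟩) else none

open Classical in
/-- The interior of the tile `T` of a position. -/
noncomputable def inner (m : ℕ) (P : Position n) (T : Fin q × Fin q) : Position m := fun p =>
  if In p then ext P (m * T.1 + p.1) (m * T.2 + p.2) else none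

theorem inner_legal {P : Position n} (hP : Legal P) (T : Fin q × Fin q) :
    Legal (inner m P T) := by
  intro p hp
  have hin : In p := by
    by_contra h
    exact hp (by unfold inner; rw [if_neg h])
  have e1 : inner m P T p = ext P (m * T.1 + p.1) (m * T.2 + p.2) := by
    unfold inner; rw [if_pos hin]
  have hb : m * (T.1 : ℕ) + p.1 < n ∧ m * (T.2 : ℕ) + p.2 < n := by
    by_contra h
    rw [e1] at hp
    exact hp (by unfold ext; rw [dif_neg h])
  have e2 : ext P (m * T.1 + p.1) (m * T.2 + p.2) =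
      P (⟨m * T.1 + p.1, hb.1⟩, ⟨m * T.2 + p.2, hb.2⟩) := by
    unfold ext; rw [dif_pos hb]
  obtain ⟨Q, R, h1, h2, h3⟩ := hP (⟨m * T.1 + p.1, hb.1⟩, ⟨m * T.2 + p.2, hb.2⟩)
    (by rw [← e2, ← e1]; exact hp)
  -- the neighbours of an interior point of the tile belong to the tile
  have nb : ∀ (p : Point m) (z z' : Point n), In p → (z.1 : ℕ) = m * T.1 + p.1 →
      (z.2 : ℕ) = m * T.2 + p.2 → Adj z z' → ∃ p' : Point m, Adj p p' ∧
        (z'.1 : ℕ) = m * T.1 + p'.1 ∧ (z'.2 : ℕ) = m * T.2 + p'.2 := by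
    intro p z z' hp hz1 hz2 hz
    obtain ⟨i1, i2, i3, i4⟩ := hp
    rcases hz with ⟨a1, a2⟩ | ⟨a1, a2⟩
    · have a1' : (z.1 : ℕ) = z'.1 := by rw [a1]
      rcases a2 with a2 | a2
      · refine ⟨(p.1, ⟨(p.2 : ℕ) + 1, i4⟩), Or.inl ⟨rfl, Or.inl rfl⟩, ?_, ?_⟩
        · simp only; omega
        · simp only; omega
      · refine ⟨(p.1, ⟨(p.2 : ℕ) - 1, by omega⟩), Or.inl ⟨rfl, Or.inr ?_⟩, ?_, ?_⟩
        · simp only; omega
        · simp only; omega
        · simp only; omega
    · have a1' : (z.2 : ℕ) = z'.2 := by rw [a1]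
      rcases a2 with a2 | a2
      · refine ⟨(⟨(p.1 : ℕ) + 1, i2⟩, p.2), Or.inr ⟨rfl, Or.inl rfl⟩, ?_, ?_⟩
        · simp only; omega
        · simp only; omega
      · refine ⟨(⟨(p.1 : ℕ) - 1, by omega⟩, p.2), Or.inr ⟨rfl, Or.inr ?_⟩, ?_, ?_⟩
        · simp only; omega
        · simp only; omega
        · simp only; omega
  have val : ∀ (p : Point m) (z : Point n), In p → (z.1 : ℕ) = m * T.1 + p.1 →
      (z.2 : ℕ) = m * T.2 + p.2 → inner m P T p = P z := by
    intro p z hp hz1 hz2
    unfold inner ext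
    rw [if_pos hp, dif_pos ⟨by rw [← hz1]; exact z.1.2, by rw [← hz2]; exact z.2.2⟩]
    congr 1
    exact Prod.ext (Fin.ext hz1.symm) (Fin.ext hz2.symm)
  have key : ∀ (z : Point n), Relation.ReflTransGen (fun a b => Adj a b ∧ P a = P b) z Q →
      ∀ p : Point m, In p → (z.1 : ℕ) = m * T.1 + p.1 → (z.2 : ℕ) = m * T.2 + p.2 →
        HasLiberty (inner m P T) p := by
    intro z hz
    induction hz using Relation.ReflTransGen.head_induction_on with
    | refl =>
      intro p hp g1 g2
      obtain ⟨p', f1, f2, f3⟩ := nb p Q R hp g1 g2 h2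
      refine HasLiberty.of_empty f1 ?_
      by_cases hp' : In p'
      · rw [val p' R hp' f2 f3, h3]
      · unfold inner; rw [if_neg hp']
    | @head a b hab _ ih =>
      intro p hp g1 g2
      obtain ⟨p', f1, f2, f3⟩ := nb p a b hp g1 g2 hab.1
      by_cases hp' : In p'
      · refine HasLiberty.of_adj f1 ?_ (ih p' hp' f2 f3)
        rw [val p a hp g1 g2, val p' b hp' f2 f3, hab.2]
      · refine HasLiberty.of_empty f1 ?_
        unfold inner; rw [if_neg hp']
  exact key _ h1 p hin rfl rfl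

/-- A board is determined by the interiors and the rims of its tiles. -/
theorem numLegal_le_pow (hn : n ≤ m * q) : numLegal n ≤ (numLegal m * 3 ^ (4 * m)) ^ q ^ 2 := by
  classical
  have h : Function.Injective (fun s : {s : Position n // Legal s} =>
      fun T : Fin q × Fin q => ((⟨inner m s.1 T, inner_legal s.2 T⟩ : {s : Position m // Legal s}),
        fun z : Fin 4 × Fin m =>
          if z.1 = 0 then ext s.1 (m * T.1 + 0) (m * T.2 + z.2)
          else if z.1 = 1 then ext s.1 (m * T.1 + (m - 1)) (m * T.2 + z.2)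
          else if z.1 = 2 then ext s.1 (m * T.1 + z.2) (m * T.2 + 0)
          else ext s.1 (m * T.1 + z.2) (m * T.2 + (m - 1)))) := by
    intro s s' h
    apply Subtype.ext
    funext P
    have hm : 0 < m := Nat.pos_of_ne_zero fun h0 => by
      rw [h0, Nat.zero_mul] at hn
      have := P.1.2
      omega
    set T : Fin q × Fin q := (⟨(P.1 : ℕ) / m, Nat.div_lt_of_lt_mul (P.1.2.trans_le hn)⟩,
      ⟨(P.2 : ℕ) / m, Nat.div_lt_of_lt_mul (P.2.2.trans_le hn)⟩) with hT
    set p : Point m := (⟨(P.1 : ℕ) % m, Nat.mod_lt _ hm⟩, ⟨(P.2 : ℕ) % m, Nat.mod_lt _ hm⟩) with hp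
    have e1 : m * (T.1 : ℕ) + p.1 = P.1 := Nat.div_add_mod _ _
    have e2 : m * (T.2 : ℕ) + p.2 = P.2 := Nat.div_add_mod _ _
    have hx : ∀ s : Position n, s P = ext s (m * T.1 + p.1) (m * T.2 + p.2) := by
      intro s
      unfold ext
      rw [dif_pos ⟨by rw [e1]; exact P.1.2, by rw [e2]; exact P.2.2⟩]
      congr 1
      exact Prod.ext (Fin.ext e1.symm) (Fin.ext e2.symm)
    rw [hx s.1, hx s'.1]
    have h1 := congrFun h T
    simp only [Prod.mk.injEq] at h1
    obtain ⟨h2, h3⟩ := h1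
    have h2' : inner m s.1 T = inner m s'.1 T := Subtype.mk.inj h2
    by_cases hin : In p
    · have := congrFun h2' p
      unfold inner at this
      rwa [if_pos hin, if_pos hin] at this
    · have b1 := p.1.2
      have b2 := p.2.2
      have hc : (p.1 : ℕ) = 0 ∨ (p.1 : ℕ) = m - 1 ∨ (p.2 : ℕ) = 0 ∨ (p.2 : ℕ) = m - 1 := by
        by_contra hcon
        push Not at hcon
        exact hin ⟨by omega, by omega, by omega, by omega⟩
      rcases hc with hc | hc | hc | hc
      · have := congrFun h3 (0, p.2)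
        rw [hc]; simpa using this
      · have := congrFun h3 (1, p.2)
        rw [hc]; simpa using this
      · have := congrFun h3 (2, p.1)
        rw [hc]; simpa using this
      · have := congrFun h3 (3, p.1)
        rw [hc]; simpa using this
  have h1 := Nat.card_le_card_of_injective _ h
  rw [Nat.card_fun, Nat.card_eq_fintype_card (α := Fin q × Fin q), Fintype.card_prod,
      Fintype.card_fin, ← sq, Nat.card_prod, Nat.card_eq_fintype_card (α := Fin 4 × Fin m → _),
      Fintype.card_fun, Fintype.card_option, Fintype.card_prod, Fintype.card_fin,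
      Fintype.card_fin] at h1
  exact h1

theorem numLegal_pos (n : ℕ) : 0 < numLegal n := by
  have : Nonempty {P : Position n // Legal P} := ⟨⟨_, legal_empty⟩⟩
  exact Nat.card_pos

end Pool.Agent.K4H71.Go
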