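import Pool.Agent.K4H71.Go.Lower
import Pool.Agent.K4H71.Go.Count

/-!
# The growth of the number of games
-/

set_option autoImplicit false

namespace Pool.Agent.K4H71.Go

open Filter Asymptotics

variable {m q n : ℕ}

theorem logLegal_nonneg (n : ℕ) : 0 ≤ Real.logb 2 (numLegal n) :=
  Real.logb_nonneg (by norm_num) (by exact_mod_cast numLegal_pos n)

theorem logLegal_ge (hn : m * q ≤ n) :
    (q : ℝ) ^ 2 * Real.logb 2 (numLegal m) ≤ Real.logb 2 (numLegal n) := by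
  have h : ((numLegal m : ℝ)) ^ (q ^ 2) ≤ numLegal n := by exact_mod_cast numLegal_pow_le hn
  have h0 : (0 : ℝ) < numLegal m := by exact_mod_cast numLegal_pos m
  have h1 := Real.logb_le_logb_of_le (b := 2) (by norm_num) (by positivity) h
  rw [Real.logb_pow] at h1
  exact_mod_cast h1

theorem logLegal_le (hn : n ≤ m * q) : Real.logb 2 (numLegal n) ≤
    (q : ℝ) ^ 2 * (Real.logb 2 (numLegal m) + 4 * m * Real.logb 2 3) := by
  have h : ((numLegal n : ℝ)) ≤ ((numLegal m : ℝ) * 3 ^ (4 * m)) ^ (q ^ 2) := by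
    exact_mod_cast numLegal_le_pow hn
  have h0 : (0 : ℝ) < numLegal m := by exact_mod_cast numLegal_pos m
  have h0' : (0 : ℝ) < numLegal n := by exact_mod_cast numLegal_pos n
  have h1 := Real.logb_le_logb_of_le (b := 2) (by norm_num) h0' h
  rw [Real.logb_pow, Real.logb_mul h0.ne' (by positivity), Real.logb_pow] at h1
  push_cast at h1
  exact h1

/-- The number of legal positions has a growth constant. -/
theorem exists_growth : ∃ ℓ : ℝ, 0 ≤ ℓ ∧ ∀ m : ℕ, 1 ≤ m →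
    Real.logb 2 (numLegal m) ≤ ℓ * m ^ 2 ∧
      ℓ * m ^ 2 ≤ Real.logb 2 (numLegal m) + 4 * Real.logb 2 3 * m := by
  set S : Set ℝ := {x | ∃ k : ℕ, 1 ≤ k ∧ x = Real.logb 2 (numLegal k) / (k : ℝ) ^ 2} with hS
  have key : ∀ k m : ℕ, 1 ≤ k → 1 ≤ m → Real.logb 2 (numLegal k) / (k : ℝ) ^ 2 ≤
      (Real.logb 2 (numLegal m) + 4 * m * Real.logb 2 3) / (m : ℝ) ^ 2 := by
    intro k m hk hm
    have h1 : (m : ℝ) ^ 2 * Real.logb 2 (numLegal k) ≤ Real.logb 2 (numLegal (k * m)) :=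
      logLegal_ge le_rfl
    have h2 : Real.logb 2 (numLegal (k * m)) ≤
        (k : ℝ) ^ 2 * (Real.logb 2 (numLegal m) + 4 * m * Real.logb 2 3) :=
      logLegal_le (by rw [Nat.mul_comm])
    have hk' : (0 : ℝ) < k := by exact_mod_cast hk
    have hm' : (0 : ℝ) < m := by exact_mod_cast hm
    rw [div_le_div_iff₀ (by positivity) (by positivity)]
    nlinarith
  have hne : S.Nonempty := ⟨_, 1, le_rfl, rfl⟩
  have hbdd : BddAbove S := by
    refine ⟨(Real.logb 2 (numLegal 1) + 4 * (1 : ℕ) * Real.logb 2 3) / ((1 : ℕ) : ℝ) ^ 2, ?_⟩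
    rintro x ⟨k, hk, rfl⟩
    exact key k 1 hk le_rfl
  refine ⟨sSup S, ?_, ?_⟩
  · have h1 : Real.logb 2 (numLegal 1) / ((1 : ℕ) : ℝ) ^ 2 ≤ sSup S :=
      le_csSup hbdd ⟨1, le_rfl, rfl⟩
    refine le_trans ?_ h1
    have := logLegal_nonneg 1
    positivity
  · intro m hm
    have hm' : (0 : ℝ) < m := by exact_mod_cast hm
    constructor
    · have h1 : Real.logb 2 (numLegal m) / (m : ℝ) ^ 2 ≤ sSup S := le_csSup hbdd ⟨m, hm, rfl⟩
      rwa [div_le_iff₀ (by positivity)] at h1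
    · have h1 : sSup S ≤ (Real.logb 2 (numLegal m) + 4 * m * Real.logb 2 3) / (m : ℝ) ^ 2 := by
        apply csSup_le hne
        rintro x ⟨k, hk, rfl⟩
        exact key k m hk hm
      rw [le_div_iff₀ (by positivity)] at h1
      linarith

theorem two_le_numLegal (hm : 3 ≤ m) : 2 ≤ numLegal m := by
  classical
  have hin : In (M := m) (⟨1, by omega⟩, ⟨1, by omega⟩) := by
    refine ⟨?_, ?_, ?_, ?_⟩ <;> simp only <;> omega
  unfold numLegal
  rw [Nat.card_eq_fintype_card]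
  refine Fintype.one_lt_card_iff.2 ⟨⟨_, legal_empty⟩, ⟨_, posE_legal hin⟩, ?_⟩
  intro h
  have h1 := congrFun (congrArg Subtype.val h) (⟨1, by omega⟩, ⟨1, by omega⟩)
  simp [posE] at h1

theorem logb_two_le {x : ℝ} (hx : 1 ≤ x) : Real.logb 2 x ≤ 2 * x := by
  have h0 : (0 : ℝ) < x := by linarith
  have h1 := Real.log_le_sub_one_of_pos h0
  have h2 : (1 : ℝ) / 2 < Real.log 2 := by
    have := Real.log_two_gt_d9
    linarith
  have h3 : 0 ≤ Real.log x := Real.log_nonneg hx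
  rw [Real.logb, div_le_iff₀ (by linarith)]
  nlinarith

theorem eight_mul_lt {r : ℕ} (hr : 16 ≤ r) : 8 * r < 2 ^ (r - 2) := by
  induction r, hr using Nat.le_induction with
  | base => norm_num
  | succ r hr ih =>
    have h1 : r + 1 - 2 = (r - 2) + 1 := by omega
    rw [h1, pow_succ]
    omega

theorem upper_asym (hn : 1 ≤ n) (hN : 2 ≤ numGames n) :
    Real.logb 2 (Real.logb 2 (numGames n)) ≤ Real.logb 2 (numLegal n) + 2 + 2 * n := by
  have hL : (0 : ℝ) < numLegal n := by exact_mod_cast numLegal_pos n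
  have hn' : (1 : ℝ) ≤ n := by exact_mod_cast hn
  have hN' : (2 : ℝ) ≤ numGames n := by exact_mod_cast hN
  have h1 : (numGames n : ℝ) ≤ ((n : ℝ) ^ 2 + 2) ^ (2 * numLegal n) := by
    exact_mod_cast numGames_le n
  have h2 := Real.logb_le_logb_of_le (b := 2) (by norm_num) (by linarith) h1
  rw [Real.logb_pow] at h2
  have h3 : Real.logb 2 ((n : ℝ) ^ 2 + 2) ≤ 2 * n := by
    rw [Real.logb_le_iff_le_rpow (by norm_num) (by positivity)]
    have h4 : n ^ 2 + 2 ≤ 2 ^ (2 * n) := by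
      clear hN h1 h2 hN' hn' hL
      induction n, hn using Nat.le_induction with
      | base => norm_num
      | succ k hk ih =>
        have : 2 ^ (2 * (k + 1)) = 4 * 2 ^ (2 * k) := by ring
        rw [this]
        nlinarith
    have h5 : ((n : ℝ)) ^ 2 + 2 ≤ 2 ^ (2 * n) := by exact_mod_cast h4
    have h6 : (2 : ℝ) ^ (2 * (n : ℝ)) = 2 ^ (2 * n) := by
      rw [← Real.rpow_natCast]
      push_cast
      rfl
    rw [h6]
    exact h5
  have h4 : Real.logb 2 (numGames n) ≤ (numLegal n : ℝ) * (4 * n) := by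
    calc _ ≤ ((2 * numLegal n : ℕ) : ℝ) * Real.logb 2 ((n : ℝ) ^ 2 + 2) := h2
      _ ≤ ((2 * numLegal n : ℕ) : ℝ) * (2 * n) := by gcongr
      _ = _ := by push_cast; ring
  have h5 : 0 < Real.logb 2 (numGames n) := Real.logb_pos (by norm_num) (by linarith)
  have h6 := Real.logb_le_logb_of_le (b := 2) (by norm_num) h5 h4
  have h7 : Real.logb 2 4 = 2 := by
    rw [show (4 : ℝ) = 2 ^ (2 : ℕ) by norm_num, Real.logb_pow, Real.logb_self_eq_one (by norm_num)]
    norm_num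
  rw [Real.logb_mul hL.ne' (by positivity), Real.logb_mul (by norm_num) (by positivity), h7] at h6
  have h8 := logb_two_le hn'
  linarith

theorem lower_asym (hm : 3 ≤ m) (hq : 4 ≤ q) (hn : (m + 4 + 1) * q < n) : 2 ≤ numGames n ∧
    ((q : ℝ) ^ 2 - 2) * Real.logb 2 (numLegal m) - 5 - 4 * q ≤
      Real.logb 2 (Real.logb 2 (numGames n)) := by
  obtain ⟨T, h1, h2⟩ := lower (by omega) (by omega) hn
  have hq2 : 16 ≤ q ^ 2 := by nlinarith
  have hT : 2 ≤ T := by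
    by_contra hcon
    have h3 : 2 ^ (q ^ 2 - 2) ≤ numLegal m ^ (q ^ 2 - 2) :=
      Nat.pow_le_pow_left (two_le_numLegal hm) _
    have h4 := eight_mul_lt hq2
    have h5 : 8 * q ^ 2 * T ≤ 8 * q ^ 2 * 1 := Nat.mul_le_mul_left _ (by omega)
    omega
  have hN : 2 ≤ numGames n := by
    calc 2 = 2 ^ 1 := by norm_num
      _ ≤ 2 ^ (T / 2) := Nat.pow_le_pow_right (by norm_num) (by omega)
      _ ≤ _ := h2
  refine ⟨hN, ?_⟩
  have hN' : (2 : ℝ) ≤ numGames n := by exact_mod_cast hN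
  have hL : (0 : ℝ) < numLegal m := by exact_mod_cast numLegal_pos m
  have hq' : (1 : ℝ) ≤ q := by exact_mod_cast (show 1 ≤ q by omega)
  have hT' : (0 : ℝ) < T := by exact_mod_cast (show 0 < T by omega)
  have k1 : (T : ℝ) / 4 ≤ Real.logb 2 (numGames n) := by
    have h3 : ((2 : ℝ)) ^ (T / 2) ≤ numGames n := by exact_mod_cast h2
    have h4 := Real.logb_le_logb_of_le (b := 2) (by norm_num) (by positivity) h3
    rw [Real.logb_pow, Real.logb_self_eq_one (by norm_num), mul_one] at h4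
    have h5 : T ≤ 4 * (T / 2) := by omega
    have h6 : (T : ℝ) ≤ 4 * ((T / 2 : ℕ) : ℝ) := by exact_mod_cast h5
    linarith
  have k2 : (numLegal m : ℝ) ^ (q ^ 2 - 2) / (32 * q ^ 2) ≤ (T : ℝ) / 4 := by
    have h3 : (numLegal m : ℝ) ^ (q ^ 2 - 2) ≤ 8 * q ^ 2 * T := by exact_mod_cast h1
    rw [div_le_iff₀ (by positivity)]
    linarith
  have k3 := Real.logb_le_logb_of_le (b := 2) (by norm_num) (by positivity) (k2.trans k1)
  have h32 : Real.logb 2 32 = 5 := by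
    rw [show (32 : ℝ) = 2 ^ (5 : ℕ) by norm_num, Real.logb_pow, Real.logb_self_eq_one (by norm_num)]
    norm_num
  rw [Real.logb_div (by positivity) (by positivity), Real.logb_pow,
    Real.logb_mul (by norm_num) (by positivity), h32, Real.logb_pow] at k3
  have k4 := logb_two_le hq'
  have k5 : ((q ^ 2 - 2 : ℕ) : ℝ) = (q : ℝ) ^ 2 - 2 := by
    rw [Nat.cast_sub (by omega)]
    push_cast
    ring
  rw [k5] at k3
  push_cast at k3
  linarith

/-- The growth of the number of games is the growth of the number of legal positions. -/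
theorem growth : ∃ ℓ : ℝ, 0 ≤ ℓ ∧
    (∀ n : ℕ, 1 ≤ n → Real.logb 2 (numLegal n) ≤ ℓ * n ^ 2 ∧
      ℓ * n ^ 2 ≤ Real.logb 2 (numLegal n) + 4 * Real.logb 2 3 * n) ∧
    (fun n : ℕ => Real.logb 2 (Real.logb 2 (numGames n)) - ℓ * (n : ℝ) ^ 2) =O[atTop]
      fun n : ℕ => (n : ℝ) ^ (4 / 3 : ℝ) := by
  obtain ⟨ℓ, h0, hℓ⟩ := exists_growth
  refine ⟨ℓ, h0, hℓ, ?_⟩
  have hc3 : 0 ≤ Real.logb 2 3 := Real.logb_nonneg (by norm_num) (by norm_num)
  refine IsBigO.of_bound (26 * ℓ + 8 * Real.logb 2 3 + 13) ?_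
  filter_upwards [eventually_ge_atTop 1000] with n hn
  have hn' : (1000 : ℝ) ≤ n := by exact_mod_cast hn
  set x : ℝ := (n : ℝ) ^ (1 / 3 : ℝ) with hx
  have hx3 : x ^ 3 = n := by
    rw [hx, ← Real.rpow_natCast, ← Real.rpow_mul (by positivity)]
    norm_num
  have hx4 : (n : ℝ) ^ (4 / 3 : ℝ) = x ^ 4 := by
    rw [hx, ← Real.rpow_natCast, ← Real.rpow_mul (by positivity)]
    norm_num
  have hx10 : 10 ≤ x := by
    by_contra hcon
    push Not at hcon
    have hx0 : 0 ≤ x := by positivity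
    have : x ^ 3 < 10 ^ 3 := by gcongr
    rw [hx3] at this
    linarith
  -- the parameters
  obtain ⟨q, hq1, hq2⟩ : ∃ q : ℕ, x ≤ q ∧ (q : ℝ) < x + 1 :=
    ⟨⌈x⌉₊, Nat.le_ceil x, Nat.ceil_lt_add_one (by linarith)⟩
  have hq10 : 10 ≤ q := by exact_mod_cast hx10.trans hq1
  obtain ⟨s, hs⟩ : ∃ s, s = (n - 1) / q := ⟨_, rfl⟩
  have hs1 : q * s ≤ n - 1 := by rw [hs]; exact Nat.mul_div_le _ _
  have hs2 : n - 1 < q * (s + 1) := by
    rw [hs]
    exact Nat.lt_mul_div_succ _ (by omega)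
  have hs1' : (q : ℝ) * s ≤ n - 1 := by
    have : q * s + 1 ≤ n := by omega
    have h : ((q * s + 1 : ℕ) : ℝ) ≤ n := by exact_mod_cast this
    push_cast at h
    linarith
  have hs2' : (n : ℝ) ≤ q * (s + 1) := by
    have : n ≤ q * (s + 1) := by omega
    exact_mod_cast this
  have hs10 : (10 : ℝ) ≤ s := by
    by_contra hcon
    push Not at hcon
    have h1 : (n : ℝ) ≤ (x + 1) * 11 := by
      calc (n : ℝ) ≤ q * (s + 1) := hs2'
        _ ≤ (x + 1) * 11 := by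
          gcongr
          linarith
    rw [← hx3] at h1
    nlinarith [sq_nonneg x, sq_nonneg (x - 10)]
  have hs10' : 10 ≤ s := by exact_mod_cast hs10
  obtain ⟨m, hm⟩ : ∃ m, s = m + 5 := ⟨s - 5, by omega⟩
  have hmn : (m + 4 + 1) * q < n := by
    have : (m + 4 + 1) * q = q * s := by rw [hm]; ring
    omega
  obtain ⟨hN, hlow⟩ := lower_asym (by omega) (by omega) hmn
  have hup := upper_asym (by omega) hN
  obtain ⟨g1, g2⟩ := hℓ n (by omega)
  obtain ⟨g3, g4⟩ := hℓ m (by omega)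
  have hsm : (s : ℝ) = m + 5 := by rw [hm]; push_cast; rfl
  have hm0 : (0 : ℝ) ≤ m := by positivity
  have hx4n : x ^ 4 = x * n := by rw [← hx3]; ring
  have hn4 : (n : ℝ) ≤ x ^ 4 := by rw [hx4n]; nlinarith
  have hqx : (q : ℝ) ≤ 2 * x := by linarith
  have hq0 : (0 : ℝ) < q := by linarith
  -- the product `q m`
  have e1 : (q : ℝ) * m ≤ n := by nlinarith
  have e2 : (n : ℝ) - 6 * q ≤ q * m := by rw [hsm] at hs2'; nlinarith
  have e3 : 0 ≤ (n : ℝ) - 6 * q := by nlinarith [sq_nonneg (x - 10), sq_nonneg x]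
  have e4 : (n : ℝ) ^ 2 - 12 * q * n ≤ (q * m) ^ 2 := by
    calc (n : ℝ) ^ 2 - 12 * q * n ≤ ((n : ℝ) - 6 * q) ^ 2 := by nlinarith
      _ ≤ ((q : ℝ) * m) ^ 2 := by gcongr
  have e5 : (m : ℝ) ≤ x ^ 2 := by
    have h1 : x * m ≤ x * x ^ 2 := by
      calc x * m ≤ q * m := by gcongr
        _ ≤ n := e1
        _ = x * x ^ 2 := by rw [← hx3]; ring
    exact le_of_mul_le_mul_left h1 (by linarith)
  have e6 : (q : ℝ) * n ≤ 2 * x ^ 4 := by rw [hx4n]; nlinarith
  have e7 : (m : ℝ) ^ 2 ≤ x ^ 4 := by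
    calc (m : ℝ) ^ 2 ≤ (x ^ 2) ^ 2 := by gcongr
      _ = x ^ 4 := by ring
  have hx1 : x ≤ x ^ 4 := by nlinarith [sq_nonneg x, sq_nonneg (x^2), pow_pos (show 0 < x by linarith) 3]
  have h14 : 1 ≤ x ^ 4 := by linarith
  set a := Real.logb 2 (numLegal m) with ha
  have ha0 : 0 ≤ a := logLegal_nonneg m
  -- the lower bound
  have f1 : ℓ * (q * m) ^ 2 - 4 * Real.logb 2 3 * (q * (q * m)) ≤ (q : ℝ) ^ 2 * a := by
    have h1 : (q : ℝ) ^ 2 * (ℓ * m ^ 2) ≤ (q : ℝ) ^ 2 * (a + 4 * Real.logb 2 3 * m) := by gcongr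
    nlinarith
  have f2 : (q : ℝ) * (q * m) ≤ 2 * x ^ 4 := by
    calc (q : ℝ) * (q * m) ≤ q * n := by gcongr
      _ ≤ _ := e6
  have f3 : ℓ * ((n : ℝ) ^ 2 - 24 * x ^ 4) ≤ ℓ * (q * m) ^ 2 := by
    gcongr
    nlinarith
  have f4 : a ≤ ℓ * x ^ 4 := by
    calc a ≤ ℓ * m ^ 2 := g3
      _ ≤ _ := by gcongr
  have f5 : 4 * Real.logb 2 3 * ((q : ℝ) * (q * m)) ≤ 4 * Real.logb 2 3 * (2 * x ^ 4) := by gcongr
  rw [Real.norm_eq_abs, Real.norm_eq_abs, abs_of_nonneg (show 0 ≤ (n : ℝ) ^ (4 / 3 : ℝ) by positivity),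
    hx4, abs_le]
  constructor
  · nlinarith
  · nlinarith [mul_nonneg h0 (show 0 ≤ x ^ 4 by positivity), mul_nonneg hc3 (show 0 ≤ x ^ 4 by positivity)]

end Pool.Agent.K4H71.Go
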