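import Pool.Agent.K4H71.Go.Defs

/-!
# Basic facts on positions and moves
-/

set_option autoImplicit false

namespace Pool.Agent.K4H71.Go

variable {n : ℕ}

theorem Adj.symm {p q : Point n} (h : Adj p q) : Adj q p := by
  rcases h with ⟨h1, h2⟩ | ⟨h1, h2⟩
  · exact Or.inl ⟨h1.symm, h2.symm⟩
  · exact Or.inr ⟨h1.symm, h2.symm⟩

theorem Adj.ne {p q : Point n} (h : Adj p q) : p ≠ q := by
  rintro rfl
  rcases h with ⟨_, h2 | h2⟩ | ⟨_, h2 | h2⟩ <;> omega

@[simp] theorem Color.other_other (c : Color) : c.other.other = c := by cases c <;> rfl

theorem Color.other_ne (c : Color) : c.other ≠ c := by cases c <;> decide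

theorem Color.eq_or_other (c d : Color) : d = c ∨ d = c.other := by
  cases c <;> cases d <;> simp [Color.other]

theorem HasLiberty.of_sameString {P : Position n} {x y : Point n} (h : SameString P x y)
    (hy : HasLiberty P y) : HasLiberty P x := by
  obtain ⟨q, r, h1, h2, h3⟩ := hy
  exact ⟨q, r, h.trans h1, h2, h3⟩

theorem HasLiberty.of_adj {P : Position n} {x y : Point n} (h : Adj x y) (he : P x = P y)
    (hy : HasLiberty P y) : HasLiberty P x :=
  HasLiberty.of_sameString (Relation.ReflTransGen.single ⟨h, he⟩) hy

theorem HasLiberty.of_empty {P : Position n} {x y : Point n} (h : Adj x y) (he : P y = none) :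
    HasLiberty P x := ⟨x, y, .refl, h, he⟩

theorem SameString.eq {P : Position n} {x y : Point n} (h : SameString P x y) : P x = P y := by
  induction h with
  | refl => rfl
  | tail _ h2 ih => exact ih.trans h2.2

theorem SameString.symm {P : Position n} {x y : Point n} (h : SameString P x y) :
    SameString P y x := by
  induction h with
  | refl => exact .refl
  | tail _ h2 ih => exact Relation.ReflTransGen.head ⟨h2.1.symm, h2.2.symm⟩ ih

/-- `Q` is obtained from `P` by removing stones. -/
def Sub (Q P : Position n) : Prop := ∀ p, Q p = P p ∨ Q p = none

theorem Sub.refl (P : Position n) : Sub P P := fun _ => Or.inl rfl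

theorem Sub.trans {P Q R : Position n} (h1 : Sub P Q) (h2 : Sub Q R) : Sub P R := by
  intro p
  rcases h1 p with h | h
  · rw [h]; exact h2 p
  · exact Or.inr h

theorem Sub.empty {P Q : Position n} (h : Sub Q P) {p : Point n} (hp : P p = none) :
    Q p = none := by
  rcases h p with h | h
  · rw [h, hp]
  · exact h

theorem Sub.eq_of_ne {P Q : Position n} (h : Sub Q P) {p : Point n} (hp : Q p ≠ none) :
    Q p = P p := (h p).resolve_right hp

theorem HasLiberty.of_sub {P Q : Position n} (h : Sub Q P) {p : Point n} (hp : Q p ≠ none)
    (hl : HasLiberty P p) : HasLiberty Q p := by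
  obtain ⟨q, r, h1, h2, h3⟩ := hl
  revert hp
  induction h1 using Relation.ReflTransGen.head_induction_on with
  | refl => intro _; exact ⟨q, r, .refl, h2, h.empty h3⟩
  | @head a b hab _ ih =>
    intro ha
    by_cases hb : Q b = none
    · exact HasLiberty.of_empty hab.1 hb
    · refine HasLiberty.of_adj hab.1 ?_ (ih hb)
      rw [h.eq_of_ne ha, h.eq_of_ne hb, hab.2]

theorem Legal.of_sub {P Q : Position n} (h : Sub Q P) (hP : Legal P) : Legal Q := by
  intro p hp
  exact HasLiberty.of_sub h hp (hP p (by rw [← h.eq_of_ne hp]; exact hp))

theorem clear_sub (P : Position n) (c : Color) : Sub (clear P c) P := by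
  intro p
  unfold clear
  split_ifs
  · exact Or.inr rfl
  · exact Or.inl rfl

theorem clear_of_legal {P : Position n} (h : Legal P) (c : Color) : clear P c = P := by
  funext p
  unfold clear
  split_ifs with h1
  · exact absurd (h p (by rw [h1.1]; simp)) h1.2
  · rfl

theorem clear_of_other {P : Position n} {c d : Color} {p : Point n} (h : P p = some d)
    (hd : d ≠ c) : clear P c p = some d := by
  unfold clear
  rw [if_neg, h]
  rintro ⟨h1, _⟩
  rw [h] at h1
  exact hd (Option.some.inj h1)

theorem clear_of_liberty {P : Position n} {c : Color} {p : Point n} (h : HasLiberty P p) :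
    clear P c p = P p := by
  unfold clear
  rw [if_neg]
  rintro ⟨_, h1⟩
  exact h1 h

theorem clear_of_noLiberty {P : Position n} {c : Color} {p : Point n} (hp : P p = some c)
    (h : ¬ HasLiberty P p) : clear P c p = none := by
  unfold clear
  rw [if_pos ⟨hp, h⟩]

theorem clear_hasLiberty {P : Position n} {c : Color} {p : Point n} (h : clear P c p = some c) :
    HasLiberty (clear P c) p := by
  have h1 : P p = some c := by rw [← (clear_sub P c).eq_of_ne (by rw [h]; simp), h]
  apply HasLiberty.of_sub (clear_sub P c) (by rw [h]; simp)
  by_contra h2
  rw [clear_of_noLiberty h1 h2] at h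
  exact absurd h (by simp)

theorem legal_move (P : Position n) (p : Point n) (c : Color) : Legal (move P p c) := by
  intro x hx
  set P2 := clear (Function.update P p (some c)) c.other with hP2
  have hm : move P p c = clear P2 c := rfl
  rw [hm] at hx ⊢
  obtain ⟨d, hd⟩ := Option.ne_none_iff_exists'.1 hx
  rcases Color.eq_or_other c d with rfl | rfl
  · exact clear_hasLiberty hd
  · apply HasLiberty.of_sub (clear_sub P2 c) hx
    apply clear_hasLiberty
    rw [← hP2, ← (clear_sub P2 c).eq_of_ne hx, hd]

/-- If a stone can be added without taking the last liberty of any string, the move just adds it. -/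
theorem move_of_legal {P : Position n} {p : Point n} {c : Color}
    (h : Legal (Function.update P p (some c))) : move P p c = Function.update P p (some c) := by
  unfold move
  rw [clear_of_legal h, clear_of_legal h]

/-- If after the removal of the opponent's strings the new stone has a liberty, nothing else is
removed. -/
theorem move_of_liberty {P : Position n} (hP : Legal P) {p : Point n} (hp : P p = none) {c : Color}
    (h : HasLiberty (clear (Function.update P p (some c)) c.other) p) :
    move P p c = clear (Function.update P p (some c)) c.other := by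
  set P1 := Function.update P p (some c) with hP1
  set P2 := clear P1 c.other with hP2
  show clear P2 c = P2
  funext x
  by_cases hx : P2 x = some c
  · apply clear_of_liberty
    by_cases hxp : x = p
    · rw [hxp]; exact h
    have hP2c : ∀ y, P1 y = some c → P2 y = some c := fun y hy =>
      clear_of_other hy (Color.other_ne c).symm
    have hx1 : P1 x = some c := by
      rw [← (clear_sub P1 c.other).eq_of_ne (by rw [← hP2, hx]; simp), ← hP2, hx]
    have hx0 : P x = some c := by
      rw [hP1, Function.update_of_ne hxp] at hx1; exact hx1
    obtain ⟨q, r, h1, h2, h3⟩ := hP x (by rw [hx0]; simp)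
    -- the string of `x` in `P` is in the string of `x` in `P2`
    have key : ∀ y, SameString P x y → SameString P2 x y ∧ P y = some c := by
      intro y hy
      induction hy with
      | refl => exact ⟨.refl, hx0⟩
      | @tail b d _ hbc ih =>
        have hd : P d = some c := by rw [← hbc.2]; exact ih.2
        refine ⟨ih.1.tail ⟨hbc.1, ?_⟩, hd⟩
        have e1 : ∀ z, P z = some c → P2 z = some c := by
          intro z hz
          apply hP2c
          rw [hP1, Function.update_of_ne, hz]
          rintro rfl
          rw [hp] at hz
          exact absurd hz (by simp)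
        rw [e1 _ hd, e1 _ ih.2]
    obtain ⟨k1, k2⟩ := key q h1
    have hqp : q ≠ p := by
      rintro rfl
      rw [hp] at k2
      exact absurd k2 (by simp)
    by_cases hrp : r = p
    · apply HasLiberty.of_sameString k1
      subst hrp
      refine HasLiberty.of_adj h2 ?_ h
      rw [hP2c r (by rw [hP1, Function.update_self]), hP2c q (by rw [hP1, Function.update_of_ne hqp, k2])]
    · apply HasLiberty.of_sameString k1
      apply HasLiberty.of_empty h2
      apply (clear_sub P1 c.other).empty
      rw [hP1, Function.update_of_ne hrp, h3]
  · unfold clear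
    rw [if_neg (fun hh => hx hh.1)]

/-- Every string of a position obtained by moves has a liberty, so removing stones keeps legality. -/
theorem legal_empty : Legal (fun _ => none : Position n) := fun _ h => absurd rfl h

end Pool.Agent.K4H71.Go
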