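import Pool.Agent.K4H71.Go.LongPath

/-!
# Many self-avoiding paths in a product with one more factor
-/

set_option autoImplicit false

namespace Pool.Agent.K4H71.Go

open Relation

variable {X S : Type*}

/-- A step in a product of two digraphs. -/
def ProdStep (RX : X → X → Prop) (RS : S → S → Prop) (a b : X × S) : Prop :=
  (RX a.1 b.1 ∧ a.2 = b.2) ∨ (a.1 = b.1 ∧ RS a.2 b.2)

theorem exists_nodup_path {α : Type*} {R : α → α → Prop} {a b : α} (h : ReflTransGen R a b)
    (hab : a ≠ b) :
    ∃ l : List α, (a :: (l ++ [b])).IsChain R ∧ (a :: (l ++ [b])).Nodup := by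
  revert hab
  induction h using ReflTransGen.head_induction_on with
  | refl => intro h; exact absurd rfl h
  | @head a c hac _ ih =>
    intro hab
    by_cases hcb : c = b
    · subst hcb
      exact ⟨[], by simpa using hac, by simpa using hab⟩
    obtain ⟨l, h1, h2⟩ := ih hcb
    by_cases ha : a ∈ c :: l
    · obtain ⟨l1, l2, hl⟩ := List.append_of_mem ha
      refine ⟨l2, ?_, ?_⟩
      · have e : c :: (l ++ [b]) = l1 ++ (a :: (l2 ++ [b])) := by
          rw [← List.cons_append, hl]; simp
        rw [e] at h1
        exact (List.isChain_append.1 h1).2.1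
      · have e : c :: (l ++ [b]) = l1 ++ (a :: (l2 ++ [b])) := by
          rw [← List.cons_append, hl]; simp
        rw [e] at h2
        exact (List.nodup_append.1 h2).2.1
    · refine ⟨c :: l, ?_, ?_⟩
      · rw [List.cons_append]
        exact List.isChain_cons_cons.2 ⟨hac, h1⟩
      · rw [List.cons_append, List.nodup_cons]
        refine ⟨?_, h2⟩
        intro h3
        rw [← List.cons_append, List.mem_append, List.mem_singleton] at h3
        rcases h3 with h3 | h3
        · exact ha h3
        · exact hab h3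

/-- A strongly connected digraph with at least two vertices has a directed cycle without repetitions. -/
theorem exists_cycle {R : S → S → Prop} (hR : ∀ x y, ReflTransGen R x y) {a b : S} (hab : a ≠ b) :
    ∃ (s0 s1 : S) (C : List S), (s0 :: s1 :: (C ++ [s0])).IsChain R ∧ (s0 :: s1 :: C).Nodup := by
  obtain ⟨v, w, h1, h2, h3⟩ := exists_crossing (p := fun z => z = a) (hR a b) rfl hab.symm
  have h2' : v = a := h2
  rw [h2'] at h1
  obtain ⟨l, h4, h5⟩ := exists_nodup_path (hR w a) h3
  refine ⟨a, w, l, List.isChain_cons_cons.2 ⟨h1, h4⟩, ?_⟩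
  have e : w :: (l ++ [a]) = (w :: l) ++ [a] := rfl
  rw [e, List.nodup_append_comm] at h5
  exact h5

/-- The two ways from `(x, s0)` to `(y, s0)`. -/
def seg (s0 s1 : S) (C : List S) (b : Bool) (x y : X) : List (X × S) :=
  if b then (x, s0) :: (x, s1) :: ((s1 :: C).map (fun s => (y, s)) ++ [(y, s0)])
  else [(x, s0), (y, s0)]

theorem seg_head (s0 s1 : S) (C : List S) (b : Bool) (x y : X) :
    (seg s0 s1 C b x y).head? = some (x, s0) := by
  unfold seg
  split_ifs <;> rfl

theorem seg_last (s0 s1 : S) (C : List S) (b : Bool) (x y : X) :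
    (seg s0 s1 C b x y).getLast? = some (y, s0) := by
  unfold seg
  split_ifs
  · rw [← List.cons_append, ← List.cons_append, List.getLast?_append]
    simp
  · simp

theorem seg_mem {s0 s1 : S} {C : List S} {b : Bool} {x y : X} {z : X × S}
    (h : z ∈ seg s0 s1 C b x y) : z.1 = x ∨ z.1 = y := by
  unfold seg at h
  split_ifs at h
  · simp only [List.mem_cons, List.mem_append, List.mem_map, List.not_mem_nil, or_false] at h
    rcases h with rfl | rfl | ⟨s, _, rfl⟩ | rfl <;> simp
  · simp only [List.mem_cons, List.not_mem_nil, or_false] at h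
    rcases h with rfl | rfl <;> simp

theorem seg_chain {RX : X → X → Prop} {RS : S → S → Prop} {s0 s1 : S} {C : List S}
    (hC : (s0 :: s1 :: (C ++ [s0])).IsChain RS) (b : Bool) {x y : X} (hxy : RX x y) :
    (seg s0 s1 C b x y).IsChain (ProdStep RX RS) := by
  obtain ⟨h01, hC2⟩ := List.isChain_cons_cons.1 hC
  unfold seg
  split_ifs
  · refine List.isChain_cons_cons.2 ⟨Or.inr ⟨rfl, h01⟩, ?_⟩
    have e : (s1 :: C).map (fun s => (y, s)) ++ [(y, s0)] =
        (s1 :: (C ++ [s0])).map (fun s => (y, s)) := by simp
    rw [e, List.map_cons]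
    refine List.isChain_cons_cons.2 ⟨Or.inl ⟨hxy, rfl⟩, ?_⟩
    rw [← List.map_cons (f := fun s => (y, s)), List.isChain_map]
    exact hC2.imp fun a b hab => Or.inr ⟨rfl, hab⟩
  · exact List.isChain_cons_cons.2 ⟨Or.inl ⟨hxy, rfl⟩, by simp⟩

theorem seg_nodup {s0 s1 : S} {C : List S} (hC : (s0 :: s1 :: C).Nodup) (b : Bool) {x y : X}
    (hxy : x ≠ y) : (seg s0 s1 C b x y).Nodup := by
  obtain ⟨h1, h2⟩ := List.nodup_cons.1 hC
  have h01 : s0 ≠ s1 := fun h => h1 (by rw [h]; exact List.mem_cons_self)
  unfold seg
  split_ifs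
  · rw [List.nodup_cons, List.nodup_cons, List.nodup_append]
    refine ⟨?_, ?_, ?_, ?_, ?_⟩
    · intro h
      simp only [List.mem_cons, List.mem_append, List.mem_map, Prod.mk.injEq, List.not_mem_nil,
        or_false, true_and] at h
      rcases h with h | ⟨s, _, h, _⟩ | h
      · exact h01 h
      · exact hxy h.symm
      · exact hxy h.1
    · intro h
      simp only [List.mem_cons, List.mem_append, List.mem_map, Prod.mk.injEq, List.not_mem_nil,
        or_false] at h
      rcases h with ⟨s, _, h, _⟩ | h
      · exact hxy h.symm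
      · exact hxy h.1
    · exact h2.map (fun a b hab => (Prod.mk.inj hab).2)
    · simp
    · intro a ha b hb hab
      rw [List.mem_singleton] at hb
      rw [List.mem_map] at ha
      obtain ⟨s, hs, rfl⟩ := ha
      rw [hb, Prod.mk.injEq] at hab
      rw [hab.2] at hs
      exact h1 hs
  · simp [hxy]

theorem seg_inj {s0 s1 : S} {C : List S} {b b' : Bool} {x y : X} (hxy : x ≠ y)
    {r r' : List (X × S)} (h : seg s0 s1 C b x y ++ r = seg s0 s1 C b' x y ++ r') :
    b = b' ∧ r = r' := by
  have hb : b = b' := by
    unfold seg at h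
    cases b <;> cases b' <;> simp [hxy, hxy.symm] at h ⊢
  subst hb
  exact ⟨rfl, List.append_cancel_left h⟩

/-- The route along a list of vertices, with a detour where the switch says so. -/
def route (s0 s1 : S) (C : List S) : List X → List Bool → List (X × S)
  | x :: y :: r, b :: bs => seg s0 s1 C b x y ++ route s0 s1 C r bs
  | _, _ => []

theorem route_mem {s0 s1 : S} {C : List S} : ∀ (bs : List Bool) (l : List X) {z : X × S},
    z ∈ route s0 s1 C l bs → z.1 ∈ l := by
  intro bs
  induction bs with
  | nil =>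
    intro l z hz
    rcases l with _ | ⟨x, _ | ⟨y, r⟩⟩ <;> simp [route] at hz
  | cons b bs ih =>
    intro l z hz
    rcases l with _ | ⟨x, _ | ⟨y, r⟩⟩
    · simp [route] at hz
    · simp [route] at hz
    · rw [route, List.mem_append] at hz
      rcases hz with hz | hz
      · rcases seg_mem hz with h | h <;> simp [h]
      · have := ih r hz
        simp [this]

theorem route_head {s0 s1 : S} {C : List S} (bs : List Bool) (l : List X) {z : X × S}
    (hz : z ∈ (route s0 s1 C l bs).head?) : ∃ x r, l = x :: r ∧ z = (x, s0) := by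
  rcases l with _ | ⟨x, _ | ⟨y, r⟩⟩
  · simp [route] at hz
  · simp [route] at hz
  · cases bs with
    | nil => simp [route] at hz
    | cons b bs =>
      rw [route, List.head?_append, seg_head] at hz
      refine ⟨x, y :: r, rfl, ?_⟩
      simpa using hz.symm

theorem route_chain {RX : X → X → Prop} {RS : S → S → Prop} {s0 s1 : S} {C : List S}
    (hC : (s0 :: s1 :: (C ++ [s0])).IsChain RS) : ∀ (bs : List Bool) (l : List X),
      l.IsChain RX → (route s0 s1 C l bs).IsChain (ProdStep RX RS) := by
  intro bs
  induction bs with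
  | nil =>
    intro l _
    rcases l with _ | ⟨x, _ | ⟨y, r⟩⟩ <;> simp [route]
  | cons b bs ih =>
    intro l hl
    rcases l with _ | ⟨x, _ | ⟨y, r⟩⟩
    · simp [route]
    · simp [route]
    · rw [route]
      obtain ⟨h1, h2⟩ := List.isChain_cons_cons.1 hl
      refine List.isChain_append.2 ⟨seg_chain hC b h1, ih r h2.tail, ?_⟩
      intro p hp z hz
      rw [seg_last] at hp
      have hp' : (y, s0) = p := by simpa using hp
      obtain ⟨x', r', e1, e2⟩ := route_head bs r hz
      rw [← hp', e2]
      left
      rw [e1] at h2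
      exact ⟨(List.isChain_cons_cons.1 h2).1, rfl⟩

theorem route_nodup {s0 s1 : S} {C : List S} (hC : (s0 :: s1 :: C).Nodup) :
    ∀ (bs : List Bool) (l : List X), l.Nodup → (route s0 s1 C l bs).Nodup := by
  intro bs
  induction bs with
  | nil =>
    intro l _
    rcases l with _ | ⟨x, _ | ⟨y, r⟩⟩ <;> simp [route]
  | cons b bs ih =>
    intro l hl
    rcases l with _ | ⟨x, _ | ⟨y, r⟩⟩
    · simp [route]
    · simp [route]
    · rw [route]
      obtain ⟨h1, h2⟩ := List.nodup_cons.1 hl
      obtain ⟨h3, h4⟩ := List.nodup_cons.1 h2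
      refine List.nodup_append.2 ⟨seg_nodup hC b (fun h => h1 (by rw [h]; exact List.mem_cons_self)),
        ih r h4, ?_⟩
      intro p hp z hz hpz
      have h5 := route_mem bs r hz
      rw [← hpz] at h5
      rcases seg_mem hp with h | h
      · rw [h] at h5; exact h1 (List.mem_cons_of_mem _ h5)
      · rw [h] at h5; exact h3 h5

theorem route_inj {s0 s1 : S} {C : List S} : ∀ (bs bs' : List Bool) (l : List X), l.Nodup →
    bs.length = bs'.length → 2 * bs.length ≤ l.length →
      route s0 s1 C l bs = route s0 s1 C l bs' → bs = bs' := by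
  intro bs
  induction bs with
  | nil =>
    intro bs' l _ h _ _
    exact (List.length_eq_zero_iff.1 h.symm).symm
  | cons b bs ih =>
    intro bs' l hl h1 h2 h3
    rcases bs' with _ | ⟨b', bs'⟩
    · simp at h1
    rcases l with _ | ⟨x, _ | ⟨y, r⟩⟩
    · simp at h2
    · simp at h2; omega
    · rw [route, route] at h3
      obtain ⟨k1, k2⟩ := List.nodup_cons.1 hl
      obtain ⟨k3, k4⟩ := List.nodup_cons.1 k2
      obtain ⟨e1, e2⟩ := seg_inj (fun h => k1 (by rw [h]; exact List.mem_cons_self)) h3
      rw [e1, ih bs' r k4 (by simpa using h1) (by simp only [List.length_cons] at h2; omega) e2]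

end Pool.Agent.K4H71.Go
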