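import Pool.Agent.K4H71.Go.Tile

/-!
# A large strongly connected class of positions of a tile

Every legal `m × m` position is embedded into a position of the `(m + 4) × (m + 4)` tile with white rim
and one isolated black stone; all these are mutually reachable.
-/

set_option autoImplicit false

namespace Pool.Agent.K4H71.Go

open Relation Finset

variable {n m : ℕ}

theorem HasLiberty.map {P : Position n} {Q : Position m} (f : Point n → Point m)
    (hf : ∀ x y, Adj x y → Adj (f x) (f y)) (hQ : ∀ x, Q (f x) = P x) {x : Point n}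
    (h : HasLiberty P x) : HasLiberty Q (f x) := by
  obtain ⟨q, r, h1, h2, h3⟩ := h
  have key : ∀ z, SameString P x z → SameString Q (f x) (f z) := by
    intro z hz
    induction hz with
    | refl => exact .refl
    | tail _ h4 ih => exact ReflTransGen.tail ih ⟨hf _ _ h4.1, by rw [hQ, hQ, h4.2]⟩
  exact ⟨f q, f r, key q h1, hf _ _ h2, by rw [hQ, h3]⟩

/-- The `m × m` board as a part of the `(m + 4) × (m + 4)` board. -/
def inc (x : Point m) : Point (m + 4) :=
  (⟨(x.1 : ℕ) + 1, by have := x.1.2; omega⟩, ⟨(x.2 : ℕ) + 1, by have := x.2.2; omega⟩)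

theorem inc_adj {x y : Point m} (h : Adj x y) : Adj (inc x) (inc y) := by
  rcases h with ⟨h1, h2⟩ | ⟨h1, h2⟩
  · left
    refine ⟨Fin.ext ?_, ?_⟩
    · simp only [inc]; rw [h1]
    · simp only [inc]; omega
  · right
    refine ⟨Fin.ext ?_, ?_⟩
    · simp only [inc]; rw [h1]
    · simp only [inc]; omega

/-- The tile with white rim, `s` inside, and a black stone at `(m + 2, m + 2)`. -/
def emb (s : Position m) : Position (m + 4) := fun p =>
  if h : 0 < (p.1 : ℕ) ∧ (p.1 : ℕ) ≤ m ∧ 0 < (p.2 : ℕ) ∧ (p.2 : ℕ) ≤ m then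
    s (⟨(p.1 : ℕ) - 1, by omega⟩, ⟨(p.2 : ℕ) - 1, by omega⟩)
  else if (p.1 : ℕ) = 0 ∧ (p.2 : ℕ) = 0 then none
  else if (p.1 : ℕ) = 0 ∨ (p.2 : ℕ) = 0 ∨ (p.1 : ℕ) = m + 3 ∨ (p.2 : ℕ) = m + 3 then some .white
  else if (p.1 : ℕ) = m + 2 ∧ (p.2 : ℕ) = m + 2 then some .black
  else none

theorem emb_inc (s : Position m) (x : Point m) : emb s (inc x) = s x := by
  unfold emb
  have h1 := x.1.2
  have h2 := x.2.2
  rw [dif_pos (show 0 < ((inc x).1 : ℕ) ∧ ((inc x).1 : ℕ) ≤ m ∧ 0 < ((inc x).2 : ℕ) ∧
    ((inc x).2 : ℕ) ≤ m from ⟨by simp [inc], by simp only [inc]; omega, by simp [inc],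
      by simp only [inc]; omega⟩)]
  rfl

theorem emb_rim (s : Position m) : Rim (emb s) := by
  constructor
  · intro p h1 h2
    have b1 := p.1.2
    have b2 := p.2.2
    unfold emb
    have h3 : (p.1 : ℕ) = 0 ∨ (p.2 : ℕ) = 0 ∨ (p.1 : ℕ) = m + 3 ∨ (p.2 : ℕ) = m + 3 := by
      by_contra hcon
      push Not at hcon
      exact h1 ⟨by omega, by omega, by omega, by omega⟩
    have h2' : ¬ ((p.1 : ℕ) = 0 ∧ (p.2 : ℕ) = 0) := h2
    rw [dif_neg (by omega), if_neg h2', if_pos h3]
  · intro p h
    obtain ⟨h1, h2⟩ := h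
    unfold emb
    rw [dif_neg (by omega), if_pos ⟨h1, h2⟩]

theorem emb_good (s : Position m) : Good (emb s) := by
  intro p hp
  by_contra h
  by_cases h2 : Corner p
  · rw [(emb_rim s).2 p h2] at hp; exact absurd hp (by simp)
  · rw [(emb_rim s).1 p h h2] at hp; exact absurd hp (by decide)

/-- The point `(m + 2, m + 2)`. -/
def v0 (m : ℕ) : Point (m + 4) := (⟨m + 2, by omega⟩, ⟨m + 2, by omega⟩)

theorem v0_in (m : ℕ) : In (v0 m) := by
  refine ⟨?_, ?_, ?_, ?_⟩ <;> simp only [v0] <;> omega

theorem emb_v0 (s : Position m) : emb s (v0 m) = some .black := by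
  unfold emb v0
  simp

theorem emb_legal {s : Position m} (hs : Legal s) : Legal (emb s) := by
  intro p hp
  by_cases h1 : In p
  · by_cases h2 : (p.1 : ℕ) ≤ m ∧ (p.2 : ℕ) ≤ m
    · obtain ⟨a1, a2, a3, a4⟩ := h1
      obtain ⟨x, rfl⟩ : ∃ x : Point m, inc x = p := by
        refine ⟨(⟨(p.1 : ℕ) - 1, by omega⟩, ⟨(p.2 : ℕ) - 1, by omega⟩), ?_⟩
        refine Prod.ext (Fin.ext ?_) (Fin.ext ?_) <;> simp only [inc] <;> omega
      rw [emb_inc] at hp
      exact HasLiberty.map inc (fun _ _ => inc_adj) (emb_inc s) (hs x hp)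
    · obtain ⟨a1, a2, a3, a4⟩ := h1
      have h3 : (p.1 : ℕ) = m + 2 ∧ (p.2 : ℕ) = m + 2 := by
        by_contra hcon
        unfold emb at hp
        rw [dif_neg (by omega), if_neg (by omega), if_neg (by omega), if_neg hcon] at hp
        exact hp rfl
      refine HasLiberty.of_empty (y := (p.1, ⟨m + 1, by omega⟩)) (Or.inl ⟨rfl, Or.inr ?_⟩) ?_
      · simp only; omega
      · unfold emb
        simp only
        rw [dif_neg (by omega), if_neg (by omega), if_neg (by omega), if_neg (by omega)]
  · have h2 : ¬ Corner p := fun h => hp ((emb_rim s).2 p h)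
    exact rim_liberty (emb_rim s) h1 h2

theorem emb_fight {s : Position m} (hs : Legal s) : Fight (emb s) :=
  ⟨emb_legal hs, emb_good s, emb_rim s⟩

/-- The strongly connected class of the tile positions that contain the single black stone. -/
def Cls (m : ℕ) : Type :=
  {t : Position (m + 4) // ReflTransGen TStep (posE (v0 m)) t ∧ ReflTransGen TStep t (posE (v0 m))}

noncomputable instance (m : ℕ) : Fintype (Cls m) := by
  classical
  unfold Cls
  infer_instance

noncomputable instance (m : ℕ) : DecidableEq (Cls m) := Classical.decEq _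

/-- Moves between positions of the class. -/
def CStep (x y : Cls m) : Prop := TStep x.1 y.1

theorem Cls.good (x : Cls m) : Good x.1 := by
  refine Good.reach ?_ x.2.1
  intro p hp
  unfold posE at hp
  split_ifs at hp with h
  rw [h]; exact v0_in m

theorem cls_connected (x y : Cls m) : ReflTransGen CStep x y := by
  have h0 : ReflTransGen TStep x.1 y.1 := x.2.2.trans y.2.1
  have key : ∀ z, ReflTransGen TStep x.1 z → ∀ hz : ReflTransGen TStep z y.1,
      ∃ h, ReflTransGen CStep x ⟨z, h⟩ := by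
    intro z hxz
    induction hxz with
    | refl => intro _; exact ⟨x.2, .refl⟩
    | @tail a b h1 h2 ih =>
      intro hz
      obtain ⟨h3, h4⟩ := ih (ReflTransGen.head h2 hz)
      exact ⟨⟨h3.1.tail h2, hz.trans y.2.2⟩, h4.tail h2⟩
  exact (key y.1 h0 .refl).2

/-- The class contains all the embedded legal positions. -/
noncomputable def embCls (hm : 1 ≤ m) (s : {s : Position m // Legal s}) : Cls m :=
  ⟨emb s.1, posE_to_fight (emb_fight s.2) (emb_v0 s.1),
    fight_to_posE (by omega) (emb_fight s.2) (emb_v0 s.1) (v0_in m)⟩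

theorem embCls_injective (hm : 1 ≤ m) : Function.Injective (embCls hm) := by
  intro s t h
  have h1 : emb s.1 = emb t.1 := congrArg Subtype.val h
  apply Subtype.ext
  funext x
  rw [← emb_inc s.1, h1, emb_inc]

theorem numLegal_le_card (hm : 1 ≤ m) : numLegal m ≤ Fintype.card (Cls m) := by
  rw [← Nat.card_eq_fintype_card]
  exact Nat.card_le_card_of_injective _ (embCls_injective hm)

theorem two_le_card (hm : 1 ≤ m) : 2 ≤ Fintype.card (Cls m) := by
  have h : embCls hm ⟨fun _ => none, legal_empty⟩ ≠ ⟨posE (v0 m), .refl, .refl⟩ := by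
    intro h
    have h1 : emb (fun _ => none : Position m) = posE (v0 m) := congrArg Subtype.val h
    have h2 := congrFun h1 (⟨0, by omega⟩, ⟨1, by omega⟩)
    rw [(emb_rim _).1] at h2
    · unfold posE at h2
      split_ifs at h2
      · exact absurd h2 (by decide)
    · rintro ⟨h3, _⟩; simp only at h3; omega
    · rintro ⟨_, h3⟩; simp only at h3; omega
  exact Fintype.one_lt_card_iff.2 ⟨_, _, h⟩

end Pool.Agent.K4H71.Go
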