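import Mathlib

/-!
# The game of Go on the `n × n` board: positions, moves with captures, games with positional superko
-/

set_option autoImplicit false

namespace Pool.Agent.K4H71.Go

/-- The two players; also the two colours of stones. -/
inductive Color
  | black
  | white
  deriving DecidableEq, Fintype

/-- The opponent. -/
def Color.other : Color → Color
  | .black => .white
  | .white => .black

/-- The points of the `n × n` board. -/
abbrev Point (n : ℕ) : Type := Fin n × Fin n

/-- Two points are adjacent when they agree in one coordinate and differ by `1` in the other. -/
def Adj {n : ℕ} (p q : Point n) : Prop :=
  (p.1 = q.1 ∧ ((p.2 : ℕ) + 1 = q.2 ∨ (q.2 : ℕ) + 1 = p.2)) ∨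
    (p.2 = q.2 ∧ ((p.1 : ℕ) + 1 = q.1 ∨ (q.1 : ℕ) + 1 = p.1))

/-- A position: every point is empty (`none`) or carries a stone. -/
abbrev Position (n : ℕ) : Type := Point n → Option Color

/-- `q` can be reached from `p` by steps between adjacent points of the same content; if `p` carries a
stone, this says that `q` lies in the string of `p`. -/
def SameString {n : ℕ} (P : Position n) (p q : Point n) : Prop :=
  Relation.ReflTransGen (fun a b => Adj a b ∧ P a = P b) p q

/-- The string of `p` has a liberty: an empty point adjacent to a stone of the string. -/
def HasLiberty {n : ℕ} (P : Position n) (p : Point n) : Prop :=
  ∃ q r : Point n, SameString P p q ∧ Adj q r ∧ P r = none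

/-- A position is legal if every string has a liberty. -/
def Legal {n : ℕ} (P : Position n) : Prop := ∀ p, P p ≠ none → HasLiberty P p

open Classical in
/-- Empty every string of colour `c` that has no liberty. -/
noncomputable def clear {n : ℕ} (P : Position n) (c : Color) : Position n :=
  fun p => if P p = some c ∧ ¬ HasLiberty P p then none else P p

/-- A player of colour `c` moves at `p`: the point `p` gets the colour `c`, then the opponent's strings
without liberty are emptied, then the own strings without liberty. -/
noncomputable def move {n : ℕ} (P : Position n) (p : Point n) (c : Color) : Position n :=
  clear (clear (Function.update P p (some c)) c.other) c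

/-- `Play c h P b g`: the sequence `g` of moves (`some p`) and passes (`none`) completes a game in which
it is the turn of `c`, the positions that have occurred are those of the list `h`, the present
position is `P`, and `b` says whether the last action was a pass.  Every move is made at an empty
point and produces a position that has not occurred; two consecutive passes end the game. -/
def Play {n : ℕ} : Color → List (Position n) → Position n → Bool → List (Option (Point n)) → Prop
  | _, _, _, _, [] => False
  | _, _, _, true, none :: g => g = []
  | c, h, P, false, none :: g => Play c.other h P true g
  | c, h, P, _, some p :: g =>
      P p = none ∧ move P p c ∉ h ∧ Play c.other (move P p c :: h) (move P p c) false g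

/-- A (complete) game on the `n × n` board: it starts from the empty board, black moves first. -/
def IsGame {n : ℕ} (g : List (Option (Point n))) : Prop :=
  Play .black [fun _ => none] (fun _ => none) false g

/-- The number of games on the `n × n` board. -/
noncomputable def numGames (n : ℕ) : ℕ := Nat.card {g : List (Option (Point n)) // IsGame g}

/-- The number of legal positions on the `n × n` board. -/
noncomputable def numLegal (n : ℕ) : ℕ := Nat.card {P : Position n // Legal P}

end Pool.Agent.K4H71.Go
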