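import Pool.Agent.K4H71.Go.Basic

/-!
# Games and chains of positions

A chain of distinct positions that starts with the empty board and in which each position arises from
the previous one by a move of one of the players gives a game, after insertion of passes.  Conversely
every game has at most `2 L` actions, where `L` is the number of legal positions.
-/

set_option autoImplicit false

namespace Pool.Agent.K4H71.Go

open Finset

variable {n : ℕ}

/-- One player moves somewhere. -/
def BStep (P P' : Position n) : Prop := ∃ p c, P p = none ∧ P' = move P p c

open Classical in
/-- The game that runs through a chain of positions; passes are inserted where necessary. -/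
noncomputable def toGame : Color → Position n → List (Position n) → List (Option (Point n))
  | _, _, [] => [none, none]
  | c, P, P' :: l =>
    if h : ∃ p, P p = none ∧ P' = move P p c then some h.choose :: toGame c.other P' l
    else if h2 : ∃ p, P p = none ∧ P' = move P p c.other then
      none :: some h2.choose :: toGame c P' l
    else []

theorem play_toGame : ∀ (l : List (Position n)) (c : Color) (h : List (Position n))
    (P : Position n), (P :: l).IsChain BStep → (∀ x ∈ l, x ∉ h) → l.Nodup →
      Play c h P false (toGame c P l) := by
  intro l
  induction l with
  | nil =>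
    intro c h P _ _ _
    simp [toGame, Play]
  | cons P' l ih =>
    intro c h P h1 h2 h3
    rw [List.isChain_cons_cons] at h1
    obtain ⟨⟨p, d, hp, hd⟩, hch⟩ := h1
    have hnd := List.nodup_cons.1 h3
    have hnew : ∀ x ∈ l, x ∉ P' :: h := by
      intro x hx hx2
      rcases List.mem_cons.1 hx2 with rfl | hx2
      · exact hnd.1 hx
      · exact h2 x (List.mem_cons_of_mem _ hx) hx2
    have hP'h : P' ∉ h := h2 P' List.mem_cons_self
    unfold toGame
    split_ifs with c1 c2
    · obtain ⟨e1, e2⟩ := c1.choose_spec
      simp only [Play]
      rw [← e2]
      exact ⟨e1, hP'h, ih c.other (P' :: h) P' hch hnew hnd.2⟩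
    · obtain ⟨e1, e2⟩ := c2.choose_spec
      simp only [Play]
      rw [← e2, Color.other_other]
      exact ⟨e1, hP'h, ih c (P' :: h) P' hch hnew hnd.2⟩
    · exfalso
      rcases Color.eq_or_other c d with rfl | rfl
      · exact c1 ⟨p, hp, hd⟩
      · exact c2 ⟨p, hp, hd⟩

/-- The positions of a game. -/
noncomputable def track : Color → Position n → List (Option (Point n)) → List (Position n)
  | _, _, [] => []
  | c, P, none :: g => track c.other P g
  | c, P, some p :: g => move P p c :: track c.other (move P p c) g

theorem track_toGame : ∀ (l : List (Position n)) (c : Color) (P : Position n),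
    (P :: l).IsChain BStep → track c P (toGame c P l) = l := by
  intro l
  induction l with
  | nil =>
    intro c P _
    simp [toGame, track]
  | cons P' l ih =>
    intro c P h1
    rw [List.isChain_cons_cons] at h1
    obtain ⟨⟨p, d, hp, hd⟩, hch⟩ := h1
    unfold toGame
    split_ifs with c1 c2
    · obtain ⟨e1, e2⟩ := c1.choose_spec
      simp only [track]
      rw [← e2, ih c.other P' hch]
    · obtain ⟨e1, e2⟩ := c2.choose_spec
      simp only [track]
      rw [← e2, Color.other_other, ih c P' hch]
    · exfalso
      rcases Color.eq_or_other c d with rfl | rfl
      · exact c1 ⟨p, hp, hd⟩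
      · exact c2 ⟨p, hp, hd⟩

theorem length_le_numLegal {h : List (Position n)} (h1 : h.Nodup) (h2 : ∀ x ∈ h, Legal x) :
    h.length ≤ numLegal n := by
  classical
  unfold numLegal
  rw [Nat.card_eq_fintype_card, Fintype.card_subtype, ← List.toFinset_card_of_nodup h1]
  apply card_le_card
  intro x hx
  rw [List.mem_toFinset] at hx
  rw [mem_filter]
  exact ⟨mem_univ _, h2 x hx⟩

theorem length_play : ∀ (g : List (Option (Point n))) (c : Color) (h : List (Position n))
    (P : Position n) (b : Bool), Play c h P b g → h.Nodup → (∀ x ∈ h, Legal x) →
      g.length + (if b then 1 else 0) + 2 * h.length ≤ 2 * numLegal n + 2 := by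
  intro g
  induction g with
  | nil =>
    intro c h P b h1
    cases b <;> exact absurd h1 (by simp [Play])
  | cons a g ih =>
    intro c h P b h1 h2 h3
    have hlen := length_le_numLegal h2 h3
    cases a with
    | none =>
      cases b with
      | true =>
        simp only [Play] at h1
        subst h1
        simp
        omega
      | false =>
        simp only [Play] at h1
        have := ih c.other h P true h1 h2 h3
        simp only [if_true, List.length_cons, Bool.false_eq_true, if_false] at this ⊢
        omega
    | some p =>
      have h1' : P p = none ∧ move P p c ∉ h ∧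
          Play c.other (move P p c :: h) (move P p c) false g := by
        cases b <;> simpa only [Play] using h1
      obtain ⟨k1, k2, k3⟩ := h1'
      have h2' : (move P p c :: h).Nodup := List.nodup_cons.2 ⟨k2, h2⟩
      have h3' : ∀ x ∈ move P p c :: h, Legal x := by
        intro x hx
        rcases List.mem_cons.1 hx with rfl | hx
        · exact legal_move _ _ _
        · exact h3 x hx
      have := ih c.other _ _ false k3 h2' h3'
      have hlen' := length_le_numLegal h2' h3'
      simp only [List.length_cons, Bool.false_eq_true, if_false] at this hlen' ⊢
      split_ifs <;> omega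

theorem length_game {g : List (Option (Point n))} (h : IsGame g) : g.length ≤ 2 * numLegal n := by
  have := length_play g _ _ _ _ h (List.nodup_singleton _) (by
    intro x hx
    rw [List.mem_singleton] at hx
    rw [hx]
    exact legal_empty)
  simp only [List.length_cons, List.length_nil, Bool.false_eq_true, if_false] at this
  omega

theorem list_code_injective {α : Type*} (N : ℕ) :
    Function.Injective (fun l : {l : List α // l.length ≤ N} => fun i : Fin N => l.1[(i : ℕ)]?) := by
  intro l l' h
  apply Subtype.ext
  apply List.ext_getElem?
  intro i
  by_cases hi : i < N
  · exact congrFun h ⟨i, hi⟩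
  · rw [List.getElem?_eq_none (by have := l.2; omega), List.getElem?_eq_none (by have := l'.2; omega)]

theorem finite_games : Finite {g : List (Option (Point n)) // IsGame g} := by
  have : Function.Injective (fun g : {g : List (Option (Point n)) // IsGame g} =>
      (⟨g.1, length_game g.2⟩ : {l : List (Option (Point n)) // l.length ≤ 2 * numLegal n})) := by
    intro g g' h
    apply Subtype.ext
    exact congrArg
      (fun z : {l : List (Option (Point n)) // l.length ≤ 2 * numLegal n} => z.1) h
  exact Finite.of_injective _ ((list_code_injective _).comp this)

/-- The upper bound for the number of games. -/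
theorem numGames_le (n : ℕ) : numGames n ≤ (n ^ 2 + 2) ^ (2 * numLegal n) := by
  have h1 : Function.Injective (fun g : {g : List (Option (Point n)) // IsGame g} =>
      (⟨g.1, length_game g.2⟩ : {l : List (Option (Point n)) // l.length ≤ 2 * numLegal n})) := by
    intro g g' h
    apply Subtype.ext
    exact congrArg
      (fun z : {l : List (Option (Point n)) // l.length ≤ 2 * numLegal n} => z.1) h
  have h2 := Nat.card_le_card_of_injective _ ((list_code_injective _).comp h1)
  refine h2.trans ?_
  rw [Nat.card_eq_fintype_card, Fintype.card_fun, Fintype.card_fin, Fintype.card_option,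
    Fintype.card_option, Fintype.card_prod, Fintype.card_fin]
  apply Nat.pow_le_pow_left
  nlinarith

/-- The lower bound by chains. -/
theorem le_numGames {β : Type*} (F : β → List (Position n)) (hF : Function.Injective F)
    (h1 : ∀ b, ((fun _ => none) :: F b).IsChain BStep)
    (h2 : ∀ b, ((fun _ => none : Position n) :: F b).Nodup) : Nat.card β ≤ numGames n := by
  have hfin := finite_games (n := n)
  refine Nat.card_le_card_of_injective
    (fun b => (⟨toGame .black (fun _ => none) (F b), ?_⟩ :
      {g : List (Option (Point n)) // IsGame g})) ?_
  · have h3 := List.nodup_cons.1 (h2 b)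
    refine play_toGame _ _ _ _ (h1 b) ?_ h3.2
    intro x hx hx2
    rw [List.mem_singleton] at hx2
    rw [hx2] at hx
    exact h3.1 hx
  · intro b b' h
    have h4 : toGame .black (fun _ => none) (F b) = toGame .black (fun _ => none) (F b') :=
      congrArg Subtype.val h
    apply hF
    rw [← track_toGame (F b) .black _ (h1 b), h4, track_toGame (F b') .black _ (h1 b')]

end Pool.Agent.K4H71.Go
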