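import Mathlib

/-!
# Long self-avoiding paths in Cartesian powers of strongly connected digraphs

`exists_path` is depth-first search; `isoperimetry` bounds from below the number of out-neighbours of a
set in a Cartesian power; `product_path` combines them: the `K`-th Cartesian power of a strongly
connected digraph with `v` vertices has a directed path with at least `v ^ K / (8 K v)` vertices.
-/

set_option autoImplicit false

namespace Pool.Agent.K4H71.Go

open Finset Relation

/-- Depth-first search. -/
theorem exists_path {X : Type*} [Fintype X] [DecidableEq X] (R : X → X → Prop) (a : ℕ)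
    (ha : a ≤ Fintype.card X) :
    ∃ (S : Finset X) (l : List X), S.card = a ∧ l.Nodup ∧ (∀ x ∈ l, x ∉ S) ∧
      l.IsChain (fun x y => R y x) ∧ ∀ x ∈ S, ∀ y, R x y → y ∈ S ∨ y ∈ l := by
  classical
  induction a with
  | zero => exact ⟨∅, [], by simp, by simp, by simp, by simp, by simp⟩
  | succ a ih =>
    obtain ⟨S, l, h1, h2, h3, h4, h5⟩ := ih (by omega)
    have key : ∀ (u : ℕ) (l : List X), Fintype.card X - S.card - l.length = u → l.Nodup →
        (∀ x ∈ l, x ∉ S) → l.IsChain (fun x y => R y x) →
        (∀ x ∈ S, ∀ y, R x y → y ∈ S ∨ y ∈ l) →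
        ∃ (S : Finset X) (l : List X), S.card = a + 1 ∧ l.Nodup ∧ (∀ x ∈ l, x ∉ S) ∧
          l.IsChain (fun x y => R y x) ∧ ∀ x ∈ S, ∀ y, R x y → y ∈ S ∨ y ∈ l := by
      intro u
      induction u using Nat.strong_induction_on with
      | _ u ihu =>
        intro l hu l2 l3 l4 l5
        -- pushing an unvisited vertex
        have push : ∀ y, y ∉ S → y ∉ l → (y :: l).IsChain (fun x y => R y x) →
            ∃ (S : Finset X) (l : List X), S.card = a + 1 ∧ l.Nodup ∧ (∀ x ∈ l, x ∉ S) ∧
              l.IsChain (fun x y => R y x) ∧ ∀ x ∈ S, ∀ y, R x y → y ∈ S ∨ y ∈ l := by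
          intro y hyS hyl hch
          have hcard : S.card + (l.length + 1) ≤ Fintype.card X := by
            have h6 : (S ∪ (y :: l).toFinset).card ≤ Fintype.card X := card_le_univ _
            rw [card_union_of_disjoint, List.toFinset_card_of_nodup (List.nodup_cons.2 ⟨hyl, l2⟩)] at h6
            · simpa using h6
            · rw [disjoint_left]
              intro z hz hz2
              rw [List.mem_toFinset, List.mem_cons] at hz2
              rcases hz2 with rfl | hz2
              · exact hyS hz
              · exact l3 z hz2 hz
          refine ihu (Fintype.card X - S.card - (y :: l).length) ?_ (y :: l) rfl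
            (List.nodup_cons.2 ⟨hyl, l2⟩) ?_ hch ?_
          · rw [List.length_cons]; omega
          · intro x hx
            rcases List.mem_cons.1 hx with rfl | hx
            · exact hyS
            · exact l3 x hx
          · intro x hx z hz
            rcases l5 x hx z hz with h | h
            · exact Or.inl h
            · exact Or.inr (List.mem_cons_of_mem _ h)
        cases l with
        | nil =>
          obtain ⟨y, hy⟩ : ∃ y, y ∉ S := by
            by_contra hcon
            push Not at hcon
            have : S = univ := eq_univ_iff_forall.2 hcon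
            rw [this, card_univ] at h1
            omega
          exact push y hy (by simp) (by simp)
        | cons x l' =>
          by_cases hex : ∃ y, R x y ∧ y ∉ S ∧ y ∉ (x :: l')
          · obtain ⟨y, hy1, hy2, hy3⟩ := hex
            exact push y hy2 hy3 (List.isChain_cons_cons.2 ⟨hy1, l4⟩)
          · push Not at hex
            refine ⟨insert x S, l', ?_, (List.nodup_cons.1 l2).2, ?_, ?_, ?_⟩
            · rw [card_insert_of_notMem (l3 x List.mem_cons_self), h1]
            · intro z hz hz2
              rcases mem_insert.1 hz2 with rfl | hz2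
              · exact (List.nodup_cons.1 l2).1 hz
              · exact l3 z (List.mem_cons_of_mem _ hz) hz2
            · exact l4.tail
            · intro z hz y hy
              rcases mem_insert.1 hz with rfl | hz
              · by_cases hyS : y ∈ S
                · exact Or.inl (mem_insert_of_mem hyS)
                · rcases List.mem_cons.1 (hex y hy hyS) with rfl | h
                  · exact Or.inl (mem_insert_self _ _)
                  · exact Or.inr h
              · rcases l5 z hz y hy with h | h
                · exact Or.inl (mem_insert_of_mem h)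
                · rcases List.mem_cons.1 h with rfl | h
                  · exact Or.inl (mem_insert_self _ _)
                  · exact Or.inr h
    exact key _ l rfl h2 h3 h4 h5

/-- The arcs of the Cartesian power: one coordinate makes a step. -/
def PowRel {ι V : Type*} [DecidableEq ι] (R : V → V → Prop) (x y : ι → V) : Prop :=
  ∃ i v, R (x i) v ∧ y = Function.update x i v

theorem exists_crossing {V : Type*} {R : V → V → Prop} {p : V → Prop} {a b : V}
    (h : ReflTransGen R a b) (ha : p a) (hb : ¬ p b) : ∃ v w, R v w ∧ p v ∧ ¬ p w := by
  induction h with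
  | refl => exact absurd ha hb
  | @tail c d _ hcd ih =>
    by_cases hc : p c
    · exact ⟨c, d, hcd, hc, hb⟩
    · exact ih hc

open Classical in
/-- The out-boundary of a set. -/
noncomputable def outBdry {X : Type*} [Fintype X] (R : X → X → Prop) (A : Finset X) : Finset X :=
  univ.filter fun y => y ∉ A ∧ ∃ x ∈ A, R x y

theorem mem_outBdry {X : Type*} [Fintype X] {R : X → X → Prop} {A : Finset X} {y : X} :
    y ∈ outBdry R A ↔ y ∉ A ∧ ∃ x ∈ A, R x y := by
  simp [outBdry]

theorem isoperimetry {K : ℕ} {V : Type*} [Fintype V] [DecidableEq V] (R : V → V → Prop)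
    (hR : ∀ x y, ReflTransGen R x y) (A : Finset (Fin K → V)) :
    A.card * Aᶜ.card ≤ K * ((outBdry (PowRel R) A).card *
      (Fintype.card V * Fintype.card (Fin K → V))) := by
  classical
  have step : ∀ z : (Fin K → V) × (Fin K → V), z ∈ A ×ˢ Aᶜ → ∃ (i : Fin K) (b : Fin K → V),
      b ∈ outBdry (PowRel R) A ∧ ∀ j, j ≠ i → b j = if j < i then z.2 j else z.1 j := by
    rintro ⟨x, y⟩ hxy
    rw [mem_product, mem_compl] at hxy
    obtain ⟨hx, hy⟩ := hxy
    simp only at hx hy ⊢
    set h : ℕ → Fin K → V := fun k j => if (j : ℕ) < k then y j else x j with hh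
    have h0 : h 0 ∈ A := by
      have : h 0 = x := by funext j; simp [hh]
      rw [this]; exact hx
    have hK : h K ∉ A := by
      have : h K = y := by funext j; simp [hh, j.2]
      rw [this]; exact hy
    obtain ⟨k, hk, hk1, hk2⟩ : ∃ k, k < K ∧ h k ∈ A ∧ h (k + 1) ∉ A := by
      by_contra hcon
      push Not at hcon
      have : ∀ k, k ≤ K → h k ∈ A := by
        intro k
        induction k with
        | zero => intro _; exact h0
        | succ k ih => intro hk; exact hcon k (by omega) (ih (by omega))
      exact hK (this K le_rfl)
    set i : Fin K := ⟨k, hk⟩ with hi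
    have e1 : Function.update (h k) i (x i) = h k := by
      have : h k i = x i := by simp [hh, hi]
      rw [← this, Function.update_eq_self]
    have e2 : Function.update (h k) i (y i) = h (k + 1) := by
      funext j
      by_cases hj : j = i
      · subst hj; simp [hh, hi]
      · rw [Function.update_of_ne hj]
        have : (j : ℕ) ≠ k := fun hjk => hj (Fin.ext hjk)
        simp only [hh]
        by_cases h1 : (j : ℕ) < k
        · rw [if_pos h1, if_pos (by omega)]
        · rw [if_neg h1, if_neg (by omega)]
    obtain ⟨v, w, hvw, hv, hw⟩ := exists_crossing (p := fun v => Function.update (h k) i v ∈ A)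
      (hR (x i) (y i)) (by rw [e1]; exact hk1) (by rw [e2]; exact hk2)
    refine ⟨i, Function.update (h k) i w, mem_outBdry.2 ⟨hw, _, hv, i, w, ?_, ?_⟩, ?_⟩
    · rw [Function.update_self]; exact hvw
    · rw [Function.update_idem]
    · intro j hj
      rw [Function.update_of_ne hj]
      rfl
  rcases (A ×ˢ Aᶜ).eq_empty_or_nonempty with he | ⟨z0, hz0⟩
  · rw [← card_product, he, card_empty]
    exact Nat.zero_le _
  obtain ⟨i0, b0, _⟩ := step z0 hz0
  have : Nonempty (Fin K) := ⟨i0⟩
  have : Nonempty (Fin K → V) := ⟨b0⟩
  choose! fi fb hb hb2 using step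
  have hinj := Finset.card_le_card_of_injOn (s := A ×ˢ Aᶜ)
    (t := (univ : Finset (Fin K)) ×ˢ ((outBdry (PowRel R) A) ×ˢ
      ((univ : Finset V) ×ˢ (univ : Finset (Fin K → V)))))
    (fun z => (fi z, fb z, z.1 (fi z), fun j => if j < fi z then z.1 j else z.2 j))
    (by
      intro z hz
      simp only [coe_product, Set.mem_prod, coe_univ, Set.mem_univ, true_and, and_true]
      exact hb z (by simpa using hz))
    (by
      rintro ⟨x, y⟩ hz ⟨x', y'⟩ hz' heq
      simp only [Prod.mk.injEq] at heq
      obtain ⟨q1, q2, q3, q4⟩ := heq
      have g1 := hb2 (x, y) (by simpa using hz)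
      have g2 := hb2 (x', y') (by simpa using hz')
      simp only at g1 g2
      rw [← q1, ← q2] at g2
      rw [← q1] at q3 q4
      set i := fi (x, y)
      have q4' : ∀ j, (if j < i then x j else y j) = if j < i then x' j else y' j :=
        fun j => congrFun q4 j
      rw [Prod.mk.injEq]
      constructor
      · funext j
        by_cases hj : j = i
        · rw [hj]; exact q3
        · by_cases hlt : j < i
          · have := q4' j
            rwa [if_pos hlt, if_pos hlt] at this
          · have a1 := g1 j hj
            have a2 := g2 j hj
            rw [if_neg hlt] at a1 a2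
            rw [← a1, ← a2]
      · funext j
        by_cases hlt : j < i
        · have hj : j ≠ i := hlt.ne
          have a1 := g1 j hj
          have a2 := g2 j hj
          rw [if_pos hlt] at a1 a2
          rw [← a1, ← a2]
        · have := q4' j
          rwa [if_neg hlt, if_neg hlt] at this)
  rw [card_product, card_product, card_product, card_product, card_univ, card_univ, card_univ,
    Fintype.card_fin] at hinj
  exact hinj

/-- The `K`-th Cartesian power of a strongly connected digraph with `v ≥ 2` vertices has a directed
path without repetitions with at least `v ^ K / (8 K v)` vertices. -/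
theorem product_path {K : ℕ} (hK : 0 < K) {V : Type*} [Fintype V] [DecidableEq V]
    (R : V → V → Prop) (hR : ∀ x y, ReflTransGen R x y) (hV : 2 ≤ Fintype.card V) :
    ∃ l : List (Fin K → V), l.Nodup ∧ l.IsChain (PowRel R) ∧
      Fintype.card V ^ K ≤ 8 * K * Fintype.card V * l.length := by
  classical
  set X := Fintype.card (Fin K → V) with hX
  have hX' : X = Fintype.card V ^ K := by rw [hX, Fintype.card_fun, Fintype.card_fin]
  have hX2 : 2 ≤ X := by
    rw [hX']
    calc 2 ≤ Fintype.card V := hV
      _ = Fintype.card V ^ 1 := (pow_one _).symm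
      _ ≤ _ := Nat.pow_le_pow_right (by omega) hK
  obtain ⟨S, l, h1, h2, h3, h4, h5⟩ := exists_path (PowRel R) (X / 2)
    (by rw [← hX]; exact Nat.div_le_self _ _) (X := Fin K → V)
  refine ⟨l.reverse, List.nodup_reverse.2 h2, List.isChain_reverse.2 h4, ?_⟩
  rw [List.length_reverse, ← hX']
  have h6 : (outBdry (PowRel R) S).card ≤ l.length := by
    calc (outBdry (PowRel R) S).card ≤ l.toFinset.card := by
          apply card_le_card
          intro y hy
          obtain ⟨hy1, x, hx, hxy⟩ := mem_outBdry.1 hy
          rw [List.mem_toFinset]
          exact (h5 x hx y hxy).resolve_left hy1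
      _ ≤ l.length := l.toFinset_card_le
  have h7 := isoperimetry R hR S
  rw [card_compl, h1, ← hX] at h7
  have h8 : X * X ≤ 8 * (X / 2 * (X - X / 2)) := by
    obtain ⟨m, hm | hm⟩ : ∃ m, X = 2 * m ∨ X = 2 * m + 1 := ⟨X / 2, by omega⟩
    · have e1 : X / 2 = m := by omega
      have e2 : X - X / 2 = m := by omega
      rw [e2, e1, hm]; nlinarith
    · have e1 : X / 2 = m := by omega
      have e2 : X - X / 2 = m + 1 := by omega
      have : 1 ≤ m := by omega
      rw [e2, e1, hm]; nlinarith
  have h9 : X * X ≤ X * (8 * K * Fintype.card V * l.length) := by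
    calc X * X ≤ 8 * (X / 2 * (X - X / 2)) := h8
      _ ≤ 8 * (K * ((outBdry (PowRel R) S).card * (Fintype.card V * X))) := by gcongr
      _ ≤ 8 * (K * (l.length * (Fintype.card V * X))) := by gcongr
      _ = _ := by ring
  exact Nat.le_of_mul_le_mul_left h9 (by omega)

end Pool.Agent.K4H71.Go
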