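import Pool.Agent.K4H71.Go.Assembly
import Pool.Agent.K4H71.Go.Branch
import Pool.Agent.K4H71.Go.Games

/-!
# The lower bound for the number of games
-/

set_option autoImplicit false

namespace Pool.Agent.K4H71.Go

open Relation Finset

variable {m q n K : ℕ}

theorem posE_legal {M : ℕ} {v : Point M} (hv : In v) : Legal (posE v) := by
  intro p hp
  by_cases h : p = v
  · rw [h]; exact posE_liberty hv
  · exact absurd (by simp [posE, h]) hp

theorem Cls.legal (x : Cls m) : Legal x.1 := by
  have key : ∀ t, ReflTransGen TStep (posE (v0 m)) t → Legal t := by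
    intro t ht
    induction ht with
    | refl => exact posE_legal (v0_in m)
    | tail _ h _ =>
      obtain ⟨p, c, _, _, rfl⟩ := h
      exact legal_move _ _ _
  exact key x.1 x.2.1

theorem asm_legal {M : ℕ} (hn : (M + 1) * q < n) {u : Fin q × Fin q → Position M}
    (hu : ∀ T, Good (u T)) (hl : ∀ T, Legal (u T)) : Legal (asm u : Position n) := by
  intro P hP
  rcases trichotomy hn P with ⟨T, p, rfl⟩ | h | h
  · rw [asm_cell] at hP
    exact (liberty_cell hn (hu T) p).2 (hl T p hP)
  · exact liberty_frame hn u h
  · exact absurd (asm_out u h) hP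

/-- The tiles of the assembled position that belongs to a vertex of the product. -/
def st (e : Fin q × Fin q ≃ Option (Fin K)) (x : (Fin K → Cls m) × Cls m) :
    Fin q × Fin q → Position (m + 4) :=
  fun T => match e T with
    | none => x.2.1
    | some k => (x.1 k).1

theorem st_good (e : Fin q × Fin q ≃ Option (Fin K)) (x : (Fin K → Cls m) × Cls m)
    (T : Fin q × Fin q) : Good (st e x T) := by
  unfold st
  cases e T with
  | none => exact x.2.good
  | some k => exact (x.1 k).good

theorem st_legal (e : Fin q × Fin q ≃ Option (Fin K)) (x : (Fin K → Cls m) × Cls m)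
    (T : Fin q × Fin q) : Legal (st e x T) := by
  unfold st
  cases e T with
  | none => exact x.2.legal
  | some k => exact (x.1 k).legal

theorem st_injective (e : Fin q × Fin q ≃ Option (Fin K)) :
    Function.Injective (st (m := m) e) := by
  intro x y h
  refine Prod.ext ?_ ?_
  · funext k
    have h1 := congrFun h (e.symm (some k))
    unfold st at h1
    rw [Equiv.apply_symm_apply] at h1
    exact Subtype.ext h1
  · have h1 := congrFun h (e.symm none)
    unfold st at h1
    rw [Equiv.apply_symm_apply] at h1
    exact Subtype.ext h1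

theorem asm_injective {M : ℕ} (hn : (M + 1) * q < n) :
    Function.Injective (asm : (Fin q × Fin q → Position M) → Position n) := by
  intro u u' h
  funext T p
  rw [← asm_cell hn u T p, h, asm_cell hn u' T p]

theorem st_step (hn : (m + 4 + 1) * q < n) (e : Fin q × Fin q ≃ Option (Fin K))
    {a b : (Fin K → Cls m) × Cls m} (h : ProdStep (PowRel CStep) CStep a b) :
    BStep (asm (st e a) : Position n) (asm (st e b)) := by
  have key : ∀ (T : Fin q × Fin q) (w : Position (m + 4)), TStep (st e a T) w →
      st e b = Function.update (st e a) T w → BStep (asm (st e a) : Position n) (asm (st e b)) := by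
    rintro T w ⟨p, c, h1, h2, h3⟩ h4
    refine ⟨cell hn T p, c, by rw [asm_cell, h1], ?_⟩
    rw [h4, h3, move_asm hn (st_good e a) (st_legal e a) T p c h2]
  rcases h with ⟨⟨i, v, h1, h2⟩, h3⟩ | ⟨h1, h2⟩
  · refine key (e.symm (some i)) v.1 ?_ ?_
    · have : st e a (e.symm (some i)) = (a.1 i).1 := by
        unfold st; rw [Equiv.apply_symm_apply]
      rw [this]; exact h1
    · funext T
      by_cases hT : T = e.symm (some i)
      · subst hT
        rw [Function.update_self]
        unfold st
        rw [Equiv.apply_symm_apply]
        simp only [h2, Function.update_self]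
      · rw [Function.update_of_ne hT]
        unfold st
        rcases hk : e T with _ | k
        · simp only [h3]
        · have hki : k ≠ i := by
            rintro rfl
            exact hT (by rw [← hk, Equiv.symm_apply_apply])
          simp only [h2, Function.update_of_ne hki]
  · refine key (e.symm none) b.2.1 ?_ ?_
    · have : st e a (e.symm none) = a.2.1 := by
        unfold st; rw [Equiv.apply_symm_apply]
      rw [this]; exact h2
    · funext T
      by_cases hT : T = e.symm none
      · subst hT
        rw [Function.update_self]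
        unfold st
        rw [Equiv.apply_symm_apply]
      · rw [Function.update_of_ne hT]
        unfold st
        rcases hk : e T with _ | k
        · exact absurd (by rw [← hk, Equiv.symm_apply_apply]) hT
        · simp only [h1]

theorem chain_forall {α : Type*} {R : α → α → Prop} {p : α → Prop} (hR : ∀ x y, R x y → p y) :
    ∀ (l : List α) (a : α), (a :: l).IsChain R → ∀ z ∈ l, p z := by
  intro l
  induction l with
  | nil => intro a _ z hz; simp at hz
  | cons b l ih =>
    intro a h z hz
    obtain ⟨h1, h2⟩ := List.isChain_cons_cons.1 h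
    rcases List.mem_cons.1 hz with rfl | hz
    · exact hR _ _ h1
    · exact ih b h2 z hz

/-- Lower bound: the number of games is at least `2 ^ (T / 2)`, where `T` is nearly the number of
legal positions. -/
theorem lower (hm : 1 ≤ m) (hq : 2 ≤ q) (hn : (m + 4 + 1) * q < n) :
    ∃ T : ℕ, numLegal m ^ (q ^ 2 - 2) ≤ 8 * q ^ 2 * T ∧ 2 ^ (T / 2) ≤ numGames n := by
  classical
  obtain ⟨K, hK⟩ : ∃ K, q ^ 2 = K + 1 := ⟨q ^ 2 - 1, by nlinarith [Nat.sub_add_cancel (show 1 ≤ q ^ 2 by nlinarith)]⟩
  have hK0 : 0 < K := by nlinarith
  have e : Fin q × Fin q ≃ Option (Fin K) := by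
    apply Fintype.equivOfCardEq
    rw [Fintype.card_prod, Fintype.card_fin, Fintype.card_option, Fintype.card_fin, ← hK, sq]
  have hV := two_le_card hm
  obtain ⟨L, l1, l2, l3⟩ := product_path hK0 (CStep (m := m)) cls_connected hV
  refine ⟨L.length, ?_, ?_⟩
  · obtain ⟨k, rfl⟩ : ∃ k, K = k + 1 := ⟨K - 1, by omega⟩
    rw [hK, show k + 1 + 1 - 2 = k by omega]
    have h1 : Fintype.card (Cls m) * Fintype.card (Cls m) ^ k ≤
        Fintype.card (Cls m) * (8 * (k + 1) * L.length) := by
      calc _ = Fintype.card (Cls m) ^ (k + 1) := by ring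
        _ ≤ 8 * (k + 1) * Fintype.card (Cls m) * L.length := l3
        _ = _ := by ring
    have h2 := Nat.le_of_mul_le_mul_left h1 (by omega)
    calc numLegal m ^ k ≤ Fintype.card (Cls m) ^ k :=
          Nat.pow_le_pow_left (numLegal_le_card hm) _
      _ ≤ 8 * (k + 1) * L.length := h2
      _ ≤ 8 * (k + 1 + 1) * L.length := by gcongr; omega
  -- the chains
  obtain ⟨a, b, hab⟩ := Fintype.one_lt_card_iff.1 hV
  obtain ⟨s0, s1, C, c1, c2⟩ := exists_cycle (cls_connected (m := m)) hab
  have hLpos : 0 < L.length := by
    rcases Nat.eq_zero_or_pos L.length with h | h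
    · rw [h, Nat.mul_zero] at l3
      have : 0 < Fintype.card (Cls m) ^ K := Nat.pow_pos (by omega)
      omega
    · exact h
  obtain ⟨x0, L', hL⟩ : ∃ x0 L', L = x0 :: L' := by
    cases L with
    | nil => simp at hLpos
    | cons x0 L' => exact ⟨x0, L', rfl⟩
  set A : Position n := asm (st e (x0, s0)) with hA
  have hMq : m + 4 + 1 ≤ (m + 4 + 1) * q := Nat.le_mul_of_pos_right _ (by omega)
  have hf : Frame (n := n) (m + 4) q (⟨m + 4, by omega⟩, ⟨0, by omega⟩) := by
    refine ⟨⟨?_, ?_⟩, Or.inl ?_⟩
    · simp only; omega
    · simp only; omega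
    · simp only; exact Nat.mod_eq_of_lt (by omega)
  have hf1 : Frame (n := n) (m + 4) q (⟨m + 4, by omega⟩, ⟨1, by omega⟩) := by
    refine ⟨⟨?_, ?_⟩, Or.inl ?_⟩
    · simp only; omega
    · simp only; omega
    · simp only; exact Nat.mod_eq_of_lt (by omega)
  set f : Point n := (⟨m + 4, by omega⟩, ⟨0, by omega⟩) with hfdef
  set A' : Position n := Function.update A f none with hA'
  have hAf : A f = some .black := asm_frame _ hf
  have hsub : Sub A' A := by
    intro p
    by_cases hp : p = f
    · right; rw [hp, hA', Function.update_self]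
    · left; rw [hA', Function.update_of_ne hp]
  have hAl : Legal A := asm_legal hn (st_good e _) (st_legal e _)
  have hA'l : Legal A' := Legal.of_sub hsub hAl
  have hA'f : A' f = none := by rw [hA', Function.update_self]
  have hup : Function.update A' f (some Color.black) = A := by
    rw [hA', Function.update_idem, ← hAf, Function.update_eq_self]
  have hlast : BStep A' A := by
    refine ⟨f, .black, hA'f, ?_⟩
    rw [move_of_legal (by rw [hup]; exact hAl), hup]
  have hne : (fun _ => none : Position n) ≠ A' := by
    intro h
    have h1 := congrFun h (⟨m + 4, by omega⟩, ⟨1, by omega⟩)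
    rw [hA', Function.update_of_ne, hA, asm_frame _ hf1] at h1
    · exact absurd h1 (by simp)
    · intro h2
      have := congrArg (fun p : Point n => (p.2 : ℕ)) h2
      simp only [hfdef] at this
      omega
  obtain ⟨l, b1, b2⟩ := exists_nodup_path
    (build_up (s := fun _ => none) (t := A') (fun _ => Or.inr rfl) hA'l) hne
  have hsubl : ∀ z ∈ (fun _ => none : Position n) :: (l ++ [A']), z f = none := by
    intro z hz
    rcases List.mem_cons.1 hz with rfl | hz
    · rfl
    · have := chain_forall (p := fun z => Sub z A') (fun x y h => h.2.1) _ _ b1 z hz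
      exact this.empty hA'f
  have b1' : ((fun _ => none : Position n) :: (l ++ [A'])).IsChain BStep := by
    refine b1.imp ?_
    rintro x y ⟨_, _, p, c, h1, _, h3⟩
    exact ⟨p, c, h1, h3⟩
  have hinj : Function.Injective (fun z : (Fin K → Cls m) × Cls m => (asm (st e z) : Position n)) :=
    (asm_injective hn).comp (st_injective e)
  set F : List.Vector Bool (L.length / 2) → List (Position n) := fun bs =>
    (l ++ [A']) ++ (route s0 s1 C L bs.1).map (fun z => (asm (st e z) : Position n)) with hF
  have hcard : Nat.card (List.Vector Bool (L.length / 2)) = 2 ^ (L.length / 2) := by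
    rw [Nat.card_eq_fintype_card, card_vector, Fintype.card_bool]
  rw [← hcard]
  refine le_numGames F ?_ ?_ ?_
  · intro bs bs' h
    have h1 := List.append_cancel_left h
    have h2 := List.map_injective_iff.2 hinj h1
    apply Subtype.ext
    refine route_inj (s0 := s0) (s1 := s1) (C := C) bs.1 bs'.1 L l1 ?_ ?_ h2
    · rw [bs.2, bs'.2]
    · rw [bs.2]; omega
  · intro bs
    rw [hF]
    simp only
    rw [← List.cons_append]
    refine List.isChain_append.2 ⟨b1', ?_, ?_⟩
    · rw [List.isChain_map]
      exact (route_chain c1 bs.1 L l2).imp fun x y h => st_step hn e h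
    · intro x hx y hy
      rw [← List.cons_append, List.getLast?_append] at hx
      have hx' : A' = x := by simpa using hx
      rw [List.head?_map] at hy
      obtain ⟨z, hz, rfl⟩ := Option.mem_map.1 hy
      obtain ⟨x', r', g1, rfl⟩ := route_head bs.1 L hz
      rw [hL] at g1
      have g2 : x0 = x' := (List.cons.inj g1).1
      rw [← hx', ← g2]
      exact hlast
  · intro bs
    rw [hF]
    simp only
    rw [← List.cons_append]
    refine List.nodup_append.2 ⟨b2, ?_, ?_⟩
    · exact (route_nodup c2 bs.1 L l1).map hinj
    · intro x hx y hy hxy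
      rw [List.mem_map] at hy
      obtain ⟨z, _, rfl⟩ := hy
      have h1 := hsubl x hx
      rw [hxy, asm_frame _ hf] at h1
      exact absurd h1 (by simp)

end Pool.Agent.K4H71.Go
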