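import Pool.Agent.K4H71.Go.Count

/-!
# Small boards
-/

set_option autoImplicit false

namespace Pool.Agent.K4H71.Go

open Finset

instance {n : ℕ} (p q : Point n) : Decidable (Adj p q) := by
  unfold Adj
  infer_instance

/-- A sufficient condition for legality on the `2 × 2` board. -/
def Ok (P : Position 2) : Prop :=
  ∀ p, P p ≠ none → (∃ r, Adj p r ∧ P r = none) ∨
    ∃ q, (Adj p q ∧ P p = P q) ∧ ∃ r, Adj q r ∧ P r = none

instance (P : Position 2) : Decidable (Ok P) := by
  unfold Ok
  infer_instance

theorem Ok.legal {P : Position 2} (h : Ok P) : Legal P := by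
  intro p hp
  rcases h p hp with ⟨r, h1, h2⟩ | ⟨q, ⟨h1, h2⟩, r, h3, h4⟩
  · exact HasLiberty.of_empty h1 h2
  · exact HasLiberty.of_adj h1 h2 (HasLiberty.of_empty h3 h4)

theorem card_ok : Fintype.card {P : Position 2 // Ok P} = 57 := by
  decide +kernel

theorem numLegal_two : 57 ≤ numLegal 2 := by
  rw [← card_ok, ← Nat.card_eq_fintype_card]
  exact Nat.card_le_card_of_injective
    (fun P : {P : Position 2 // Ok P} => (⟨P.1, P.2.legal⟩ : {P : Position 2 // Legal P})) (by
      intro P Q h
      apply Subtype.ext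
      exact congrArg (fun z : {P : Position 2 // Legal P} => z.1) h)

/-- The centre of a `3 × 3` block is a stone all of whose neighbours are of the other colour. -/
def Surr (s : Position 3) : Prop :=
  ∃ c : Color, s (1, 1) = some c ∧ s (0, 1) = some c.other ∧ s (1, 0) = some c.other ∧
    s (2, 1) = some c.other ∧ s (1, 2) = some c.other

/-- A surrounded centre with given corners. -/
def surrPos (z : Color × (Fin 4 → Option Color)) : Position 3 := fun p =>
  if p = (1, 1) then some z.1
  else if p = (0, 0) then z.2 0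
  else if p = (0, 2) then z.2 1
  else if p = (2, 0) then z.2 2
  else if p = (2, 2) then z.2 3
  else some z.1.other

theorem surr_surrPos (z : Color × (Fin 4 → Option Color)) : Surr (surrPos z) := by
  refine ⟨z.1, ?_, ?_, ?_, ?_, ?_⟩ <;> unfold surrPos <;> simp

theorem surrPos_injective : Function.Injective surrPos := by
  rintro ⟨c, f⟩ ⟨d, g⟩ h
  have h0 := congrFun h (1, 1)
  have h1 := congrFun h (0, 0)
  have h2 := congrFun h (0, 2)
  have h3 := congrFun h (2, 0)
  have h4 := congrFun h (2, 2)
  simp [surrPos] at h0 h1 h2 h3 h4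
  refine Prod.ext h0 ?_
  funext i
  fin_cases i
  · exact h1
  · exact h2
  · exact h3
  · exact h4

theorem card_not_surr : Nat.card {s : Position 3 // ¬ Surr s} ≤ 19521 := by
  classical
  have h1 : 162 ≤ Fintype.card {s : Position 3 // Surr s} := by
    have h := Fintype.card_le_of_injective
      (fun z => (⟨surrPos z, surr_surrPos z⟩ : {s : Position 3 // Surr s})) (by
        intro z z' h
        exact surrPos_injective (congrArg (fun s : {s : Position 3 // Surr s} => s.1) h))
    have h2 : Fintype.card (Color × (Fin 4 → Option Color)) = 162 := by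
      rw [Fintype.card_prod, Fintype.card_fun, Fintype.card_option, Fintype.card_fin]
      rfl
    rw [h2] at h
    exact h
  have h2 : Fintype.card (Position 3) = 19683 := by
    rw [Fintype.card_fun, Fintype.card_option, Fintype.card_prod, Fintype.card_fin]
    rfl
  have h3 := Fintype.card_subtype_compl (fun s : Position 3 => Surr s)
  rw [Nat.card_eq_fintype_card, h3, h2]
  omega

theorem not_surr {q : ℕ} {P : Position (3 * q)} (hP : Legal P) (T : Fin q × Fin q) :
    ¬ Surr (fun p => P (cell0 le_rfl T p)) := by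
  rintro ⟨c, h0, h1, h2, h3, h4⟩
  simp only at h0 h1 h2 h3 h4
  set z : Point (3 * q) := cell0 le_rfl T (1, 1) with hz
  have nb : ∀ r, Adj z r → P r = some c.other := by
    intro r hr
    have z1 : (z.1 : ℕ) = 3 * T.1 + 1 := rfl
    have z2 : (z.2 : ℕ) = 3 * T.2 + 1 := rfl
    rcases hr with ⟨e1, e2 | e2⟩ | ⟨e1, e2 | e2⟩
    · have : r = cell0 le_rfl T (1, 2) := by
        refine Prod.ext (Fin.ext ?_) (Fin.ext ?_)
        · rw [← e1, z1]; rfl
        · rw [← e2, z2]; rfl
      rw [this]; exact h4
    · have : r = cell0 le_rfl T (1, 0) := by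
        refine Prod.ext (Fin.ext ?_) (Fin.ext ?_)
        · rw [← e1, z1]; rfl
        · show (r.2 : ℕ) = 3 * T.2 + 0
          omega
      rw [this]; exact h2
    · have : r = cell0 le_rfl T (2, 1) := by
        refine Prod.ext (Fin.ext ?_) (Fin.ext ?_)
        · rw [← e2, z1]; rfl
        · rw [← e1, z2]; rfl
      rw [this]; exact h3
    · have : r = cell0 le_rfl T (0, 1) := by
        refine Prod.ext (Fin.ext ?_) (Fin.ext ?_)
        · show (r.1 : ℕ) = 3 * T.1 + 0
          omega
        · rw [← e1, z2]; rfl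
      rw [this]; exact h1
  obtain ⟨q', r, k1, k2, k3⟩ := hP z (by rw [h0]; simp)
  have key : ∀ y, SameString P z y → y = z := by
    intro y hy
    induction hy with
    | refl => rfl
    | @tail a b _ hab ih =>
      exfalso
      rw [ih] at hab
      have h5 := hab.2
      rw [nb b hab.1, h0] at h5
      exact Color.other_ne c (Option.some.inj h5).symm
  rw [key q' k1] at k2
  rw [nb r k2] at k3
  exact absurd k3 (by simp)

theorem numLegal_three_mul (q : ℕ) : numLegal (3 * q) ≤ 19521 ^ q ^ 2 := by
  classical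
  have h := Nat.card_le_card_of_injective
    (fun P : {P : Position (3 * q) // Legal P} => fun T : Fin q × Fin q =>
      (⟨fun p => P.1 (cell0 le_rfl T p), not_surr P.2 T⟩ : {s : Position 3 // ¬ Surr s})) (by
      intro P Q h
      apply Subtype.ext
      funext x
      rcases tile_cases (m := 3) (q := q) le_rfl x with ⟨T, p, rfl⟩ | h1
      · have h2 := congrArg (fun s : {s : Position 3 // ¬ Surr s} => s.1 p) (congrFun h T)
        exact h2
      · exact absurd ⟨x.1.2, x.2.2⟩ h1)
  refine h.trans ?_
  rw [Nat.card_fun, Nat.card_eq_fintype_card (α := Fin q × Fin q), Fintype.card_prod,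
    Fintype.card_fin, ← sq]
  exact Nat.pow_le_pow_left card_not_surr _

/-- Bounds for the growth constant. -/
theorem growth_bounds {ℓ : ℝ} (h : ∀ n : ℕ, 1 ≤ n → Real.logb 2 (numLegal n) ≤ ℓ * n ^ 2 ∧
    ℓ * n ^ 2 ≤ Real.logb 2 (numLegal n) + 4 * Real.logb 2 3 * n) :
    Real.logb 2 57 / 4 ≤ ℓ ∧ ℓ ≤ Real.logb 2 19521 / 9 := by
  constructor
  · have h1 := (h 2 (by norm_num)).1
    have h2 : Real.logb 2 57 ≤ Real.logb 2 (numLegal 2) :=
      Real.logb_le_logb_of_le (by norm_num) (by norm_num) (by exact_mod_cast numLegal_two)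
    push_cast at h1
    linarith
  · by_contra hcon
    push Not at hcon
    set c3 := Real.logb 2 3 with hc3
    obtain ⟨q, hq⟩ := exists_nat_gt (12 * c3 / (9 * ℓ - Real.logb 2 19521))
    have hd : 0 < 9 * ℓ - Real.logb 2 19521 := by linarith
    have hc0 : 0 ≤ c3 := Real.logb_nonneg (by norm_num) (by norm_num)
    have hq0 : (0 : ℝ) < q := lt_of_le_of_lt (by positivity) hq
    have hq1 : 1 ≤ q := by exact_mod_cast hq0
    rw [div_lt_iff₀ hd] at hq
    have h1 := (h (3 * q) (by omega)).2
    have h2 : (numLegal (3 * q) : ℝ) ≤ 19521 ^ q ^ 2 := by exact_mod_cast numLegal_three_mul q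
    have h3 : (0 : ℝ) < numLegal (3 * q) := by exact_mod_cast numLegal_pos _
    have h4 := Real.logb_le_logb_of_le (b := 2) (by norm_num) h3 h2
    rw [Real.logb_pow] at h4
    push_cast at h1 h4
    nlinarith

end Pool.Agent.K4H71.Go
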