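import Pool.Agent.K4H71.Go.Basic

/-!
# Reachability on one tile

On an `M × M` board we let black play only at interior points.  Positions whose rim is white except for
the empty corner `(0, 0)` and that contain a black stone are mutually reachable.
-/

set_option autoImplicit false

namespace Pool.Agent.K4H71.Go

open Relation Finset

variable {n M : ℕ}

/-- Adding the stones of a legal position one by one. -/
theorem build_up {s t : Position n} (h : Sub s t) (ht : Legal t) :
    ReflTransGen (fun a b => Sub a t ∧ Sub b t ∧ ∃ p c, a p = none ∧ t p = some c ∧ b = move a p c)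
      s t := by
  classical
  generalize hk : (univ.filter fun p => s p ≠ t p).card = k
  induction k generalizing s with
  | zero =>
    have : s = t := by
      funext p
      by_contra hp
      have h2 : p ∈ (univ.filter fun p => s p ≠ t p) := by simp [hp]
      rw [Finset.card_eq_zero.1 hk] at h2
      simp at h2
    rw [this]
  | succ k ih =>
    obtain ⟨p, hp⟩ : ∃ p, s p ≠ t p := by
      have h2 : (univ.filter fun p => s p ≠ t p).Nonempty := by
        rw [← Finset.card_pos]; omega
      obtain ⟨p, hp⟩ := h2
      exact ⟨p, by simpa using hp⟩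
    have hs : s p = none := (h p).resolve_left hp
    obtain ⟨c, hc⟩ := Option.ne_none_iff_exists'.1 (fun h0 : t p = none => hp (by rw [hs, h0]))
    set s1 := Function.update s p (some c) with hs1
    have h1 : Sub s1 t := by
      intro q
      by_cases hq : q = p
      · subst hq; left; rw [hs1, Function.update_self, hc]
      · rw [hs1, Function.update_of_ne hq]; exact h q
    have hm : move s p c = s1 := move_of_legal (Legal.of_sub h1 ht)
    refine ReflTransGen.head ⟨h, h1, p, c, hs, hc, hm.symm⟩ (ih h1 ?_)
    have : (univ.filter fun q => s1 q ≠ t q) = (univ.filter fun q => s q ≠ t q).erase p := by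
      ext q
      by_cases hq : q = p
      · subst hq
        simp [hs1, hc]
      · simp [hs1, hq]
    rw [this, card_erase_of_mem (by simp [hp]), hk]
    rfl

/-- Interior points. -/
def In (p : Point M) : Prop :=
  0 < (p.1 : ℕ) ∧ (p.1 : ℕ) + 1 < M ∧ 0 < (p.2 : ℕ) ∧ (p.2 : ℕ) + 1 < M

/-- The point `(0, 0)`. -/
def Corner (p : Point M) : Prop := (p.1 : ℕ) = 0 ∧ (p.2 : ℕ) = 0

/-- Black stones occur only at interior points. -/
def Good (t : Position M) : Prop := ∀ p, t p = some .black → In p

/-- A move on a tile; black may play only at interior points. -/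
def TStep (t t' : Position M) : Prop :=
  ∃ p c, t p = none ∧ (c = Color.black → In p) ∧ t' = move t p c

theorem Good.of_sub {s t : Position M} (h : Sub s t) (ht : Good t) : Good s := by
  intro p hp
  apply ht
  rw [← h.eq_of_ne (by rw [hp]; simp), hp]

theorem Good.update {t : Position M} (ht : Good t) {p : Point M} {c : Color}
    (hc : c = Color.black → In p) : Good (Function.update t p (some c)) := by
  intro q hq
  by_cases h : q = p
  · subst h
    rw [Function.update_self] at hq
    exact hc (Option.some.inj hq)
  · rw [Function.update_of_ne h] at hq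
    exact ht q hq

theorem Good.step {t t' : Position M} (ht : Good t) (h : TStep t t') : Good t' := by
  obtain ⟨p, c, _, h2, rfl⟩ := h
  exact Good.of_sub ((clear_sub _ _).trans (clear_sub _ _)) (ht.update h2)

theorem Good.reach {t t' : Position M} (ht : Good t) (h : ReflTransGen TStep t t') : Good t' := by
  induction h with
  | refl => exact ht
  | tail _ h2 ih => exact ih.step h2

theorem reach_of_sub {s t : Position M} (h : Sub s t) (ht : Legal t) (hg : Good t) :
    ReflTransGen TStep s t := by
  have key : ∀ a b, (Sub a t ∧ Sub b t ∧ ∃ p c, a p = none ∧ t p = some c ∧ b = move a p c) →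
      TStep a b := by
    rintro a b ⟨_, _, p, c, h1, h2, h3⟩
    exact ⟨p, c, h1, fun hc => hg p (by rw [h2, hc]), h3⟩
  exact ReflTransGen.mono key _ _ (build_up h ht)

/-- The rim is white except for the empty corner. -/
def Rim (t : Position M) : Prop :=
  (∀ p : Point M, ¬ In p → ¬ Corner p → t p = some .white) ∧ ∀ p : Point M, Corner p → t p = none

theorem rim_liberty {t : Position M} (h : Rim t) {p : Point M} (hp : ¬ In p) (hc : ¬ Corner p) :
    HasLiberty t p := by
  -- the side `x = 0`
  have hA : ∀ y : ℕ, ∀ p : Point M, (p.1 : ℕ) = 0 → (p.2 : ℕ) = y + 1 → HasLiberty t p := by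
    intro y
    induction y with
    | zero =>
      intro p h1 h2
      have h3 : 0 < M := lt_of_le_of_lt (Nat.zero_le _) p.1.2
      refine HasLiberty.of_empty (y := (p.1, ⟨0, h3⟩)) (Or.inl ⟨rfl, Or.inr ?_⟩) ?_
      · simp only; omega
      · exact h.2 _ ⟨h1, rfl⟩
    | succ y ih =>
      intro p h1 h2
      have h3 : y + 1 < M := by have := p.2.2; omega
      refine HasLiberty.of_adj (y := (p.1, ⟨y + 1, h3⟩)) (Or.inl ⟨rfl, Or.inr ?_⟩) ?_
        (ih _ h1 rfl)
      · simp only; omega
      · rw [h.1 p (fun hh => by have := hh.1; omega) (fun hh => by have := hh.2; omega),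
          h.1 _ (fun hh => by have := hh.1; simp only at this; omega)
            (fun hh => by have := hh.2; simp only at this; omega)]
  have hB : ∀ y : ℕ, ∀ p : Point M, (p.2 : ℕ) = 0 → (p.1 : ℕ) = y + 1 → HasLiberty t p := by
    intro y
    induction y with
    | zero =>
      intro p h1 h2
      have h3 : 0 < M := lt_of_le_of_lt (Nat.zero_le _) p.1.2
      refine HasLiberty.of_empty (y := (⟨0, h3⟩, p.2)) (Or.inr ⟨rfl, Or.inr ?_⟩) ?_
      · simp only; omega
      · exact h.2 _ ⟨rfl, h1⟩
    | succ y ih =>
      intro p h1 h2
      have h3 : y + 1 < M := by have := p.1.2; omega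
      refine HasLiberty.of_adj (y := (⟨y + 1, h3⟩, p.2)) (Or.inr ⟨rfl, Or.inr ?_⟩) ?_
        (ih _ h1 rfl)
      · simp only; omega
      · rw [h.1 p (fun hh => by have := hh.2.2.1; omega) (fun hh => by have := hh.1; omega),
          h.1 _ (fun hh => by have := hh.2.2.1; simp only at this; omega)
            (fun hh => by have := hh.1; simp only at this; omega)]
  have hC : ∀ y : ℕ, ∀ p : Point M, (p.1 : ℕ) ≠ 0 → (p.1 : ℕ) + 1 = M → (p.2 : ℕ) = y →
      HasLiberty t p := by
    intro y
    induction y with
    | zero =>
      intro p h0 h1 h2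
      exact hB ((p.1 : ℕ) - 1) p h2 (by omega)
    | succ y ih =>
      intro p h0 h1 h2
      have h3 : y < M := by have := p.2.2; omega
      refine HasLiberty.of_adj (y := (p.1, ⟨y, h3⟩)) (Or.inl ⟨rfl, Or.inr ?_⟩) ?_
        (ih _ h0 h1 rfl)
      · simp only; omega
      · rw [h.1 p (fun hh => by have := hh.2.1; omega) (fun hh => by have := hh.1; omega),
          h.1 _ (fun hh => by have := hh.2.1; simp only at this; omega)
            (fun hh => by have := hh.1; simp only at this; omega)]
  have hD : ∀ y : ℕ, ∀ p : Point M, (p.2 : ℕ) ≠ 0 → (p.2 : ℕ) + 1 = M → (p.1 : ℕ) = y →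
      HasLiberty t p := by
    intro y
    induction y with
    | zero =>
      intro p h0 h1 h2
      exact hA ((p.2 : ℕ) - 1) p h2 (by omega)
    | succ y ih =>
      intro p h0 h1 h2
      have h3 : y < M := by have := p.1.2; omega
      refine HasLiberty.of_adj (y := (⟨y, h3⟩, p.2)) (Or.inr ⟨rfl, Or.inr ?_⟩) ?_
        (ih _ h0 h1 rfl)
      · simp only; omega
      · rw [h.1 p (fun hh => by have := hh.2.2.2; omega) (fun hh => by have := hh.2; omega),
          h.1 _ (fun hh => by have := hh.2.2.2; simp only at this; omega)
            (fun hh => by have := hh.2; simp only at this; omega)]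
  have hb1 := p.1.2
  have hb2 := p.2.2
  by_cases h1 : (p.1 : ℕ) = 0
  · have h2 : (p.2 : ℕ) ≠ 0 := fun h2 => hc ⟨h1, h2⟩
    exact hA ((p.2 : ℕ) - 1) p h1 (by omega)
  by_cases h2 : (p.2 : ℕ) = 0
  · exact hB ((p.1 : ℕ) - 1) p h2 (by omega)
  by_cases h3 : (p.1 : ℕ) + 1 = M
  · exact hC _ p h1 h3 rfl
  by_cases h4 : (p.2 : ℕ) + 1 = M
  · exact hD _ p h2 h4 rfl
  exact absurd ⟨by omega, by omega, by omega, by omega⟩ hp

theorem SameString.mono {P Q : Position n} {c : Color} {x y : Point n} (hx : P x = some c)
    (h : ∀ z, P z = some c → Q z = some c) (hs : SameString P x y) : SameString Q x y := by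
  have key : SameString Q x y ∧ P y = some c := by
    induction hs with
    | refl => exact ⟨.refl, hx⟩
    | @tail a b _ hab ih =>
      have hb : P b = some c := by rw [← hab.2]; exact ih.2
      exact ⟨ih.1.tail ⟨hab.1, by rw [h _ ih.2, h _ hb]⟩, hb⟩
  exact key.1

/-- The class of positions preserved during the fight. -/
def Fight (t : Position M) : Prop := Legal t ∧ Good t ∧ Rim t

theorem In.ne_of_not {p q : Point M} (hp : In p) (hq : ¬ In q) : q ≠ p := by
  rintro rfl; exact hq hp

theorem Corner.not_in {p : Point M} (h : Corner p) : ¬ In p := fun h2 => by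
  have := h2.1; have := h.1; omega

theorem Rim.update {t : Position M} (h : Rim t) {x : Point M} (hx : In x) (c : Color) :
    Rim (Function.update t x (some c)) := by
  constructor
  · intro p h1 h2
    rw [Function.update_of_ne (hx.ne_of_not h1)]
    exact h.1 p h1 h2
  · intro p h1
    rw [Function.update_of_ne (hx.ne_of_not h1.not_in)]
    exact h.2 p h1

theorem Rim.clear {t : Position M} (h : Rim t) (c : Color) : Rim (clear t c) := by
  constructor
  · intro p h1 h2
    rw [clear_of_liberty (rim_liberty h h1 h2)]
    exact h.1 p h1 h2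
  · intro p h1
    exact (clear_sub t c).empty (h.2 p h1)

theorem Fight.step {t : Position M} (h : Fight t) {x : Point M} (hx : In x) (c : Color) :
    Fight (move t x c) := by
  refine ⟨legal_move _ _ _, ?_, ?_⟩
  · exact Good.of_sub ((clear_sub _ _).trans (clear_sub _ _)) (h.2.1.update fun _ => hx)
  · exact ((h.2.2.update hx c).clear _).clear _

/-- A liberty of a black string of a fighting position is an interior point. -/
theorem Fight.in_of_adj {t : Position M} (h : Fight t) {q x : Point M} (hq : t q = some .black)
    (ha : Adj q x) (hx : t x = none) : In x := by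
  by_contra hx2
  have hq2 := h.2.1 q hq
  by_cases hc : Corner x
  · obtain ⟨h1, h2, h3, h4⟩ := hq2
    obtain ⟨c1, c2⟩ := hc
    rcases ha with ⟨e1, _⟩ | ⟨e1, _⟩
    · rw [e1] at h1; omega
    · rw [e1] at h3; omega
  · rw [h.2.2.1 x hx2 hc] at hx
    exact absurd hx (by simp)

/-- A black string of a fighting position can be removed. -/
theorem kill (k : ℕ) : ∀ (t : Position M), Fight t → ∀ b, t b = some .black →
    (univ.filter fun p => t p ≠ some .black).card = k →
    ∃ t', ReflTransGen TStep t t' ∧ Fight t' ∧ t' b = none ∧
      ∀ p, t' p = some .black → t p = some .black ∧ ¬ SameString t b p := by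
  classical
  induction k using Nat.strong_induction_on with
  | _ k ih =>
    intro t ht b hb hk
    obtain ⟨q, x, h1, h2, h3⟩ := ht.1 b (by rw [hb]; simp)
    have hq : t q = some .black := by rw [← h1.eq, hb]
    have hx : In x := ht.in_of_adj hq h2 h3
    have hxb : b ≠ x := by rintro rfl; rw [h3] at hb; exact absurd hb (by simp)
    by_cases hcase : ∃ q' y, SameString t b q' ∧ Adj q' y ∧ t y = none ∧ y ≠ x
    · obtain ⟨q', y, g1, g2, g3, g4⟩ := hcase
      set P1 := Function.update t x (some Color.black) with hP1
      have e1 : ∀ z, t z = some .black → P1 z = some .black := by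
        intro z hz
        rw [hP1, Function.update_of_ne, hz]
        rintro rfl
        rw [h3] at hz; exact absurd hz (by simp)
      set P2 := clear P1 Color.black.other with hP2
      have e2 : ∀ z, P1 z = some .black → P2 z = some .black := fun z hz =>
        clear_of_other hz (by decide)
      have e3 : ∀ z, t z = some .black → P2 z = some .black := fun z hz => e2 z (e1 z hz)
      have hxP2 : P2 x = some .black := e2 x (by rw [hP1, Function.update_self])
      have hbx : SameString P2 b x := by
        refine (SameString.mono hb e3 h1).tail ⟨h2, ?_⟩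
        rw [e3 q hq, hxP2]
      have hlib : HasLiberty P2 x := by
        refine ⟨q', y, hbx.symm.trans (SameString.mono hb e3 g1), g2, ?_⟩
        apply (clear_sub P1 _).empty
        rw [hP1, Function.update_of_ne g4, g3]
      have hm : move t x .black = P2 := move_of_liberty ht.1 h3 hlib
      have hstep : TStep t P2 := ⟨x, .black, h3, fun _ => hx, hm.symm⟩
      have hF : Fight P2 := by rw [← hm]; exact ht.step hx _
      have hblack : ∀ z, P2 z = some .black → z = x ∨ t z = some .black := by
        intro z hz
        have h5 : P1 z = some .black := by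
          rw [← (clear_sub P1 _).eq_of_ne (by rw [← hP2, hz]; simp), ← hP2, hz]
        by_cases hzx : z = x
        · exact Or.inl hzx
        · right
          rw [hP1, Function.update_of_ne hzx] at h5
          exact h5
      have hlt : (univ.filter fun p => P2 p ≠ some .black).card < k := by
        rw [← hk]
        apply card_lt_card
        rw [Finset.ssubset_iff_of_subset]
        · refine ⟨x, by simp [h3], by simp [hxP2]⟩
        · intro z hz
          rw [mem_filter] at hz ⊢
          exact ⟨mem_univ _, fun hz2 => hz.2 (e3 z hz2)⟩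
      obtain ⟨t', r1, r2, r3, r4⟩ := ih _ hlt P2 hF b (e3 b hb) rfl
      refine ⟨t', ReflTransGen.head hstep r1, r2, r3, ?_⟩
      intro p hp
      obtain ⟨s1, s2⟩ := r4 p hp
      constructor
      · rcases hblack p s1 with rfl | h6
        · exact absurd hbx s2
        · exact h6
      · intro h6
        exact s2 (SameString.mono hb e3 h6)
    · push Not at hcase
      set P1 := Function.update t x (some Color.white) with hP1
      set P2 := clear P1 Color.white.other with hP2
      have hP1b : ∀ z, P1 z = some .black → t z = some .black := by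
        intro z hz
        by_cases hzx : z = x
        · subst hzx
          rw [hP1, Function.update_self] at hz
          exact absurd hz (by decide)
        · rw [hP1, Function.update_of_ne hzx] at hz
          exact hz
      have hdead : ∀ p, SameString t b p → P2 p = none := by
        intro p hp
        have hpt : t p = some .black := by rw [← hp.eq, hb]
        have hpx : p ≠ x := by rintro rfl; rw [h3] at hpt; exact absurd hpt (by simp)
        have hp1 : P1 p = some .black := by rw [hP1, Function.update_of_ne hpx, hpt]
        apply clear_of_noLiberty hp1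
        rintro ⟨q', r, k1, k2, k3⟩
        have hrx : r ≠ x := by
          rintro rfl
          rw [hP1, Function.update_self] at k3
          exact absurd k3 (by simp)
        rw [hP1, Function.update_of_ne hrx] at k3
        exact hrx (hcase q' r (hp.trans (SameString.mono hp1 hP1b k1)) k2 k3)
      refine ⟨move t x .white, ReflTransGen.single ⟨x, .white, h3, fun h => by simp at h, rfl⟩,
        ht.step hx _, ?_, ?_⟩
      · exact (clear_sub P2 _).empty (hdead b .refl)
      · intro p hp
        have hp2 : P2 p = some .black := by
          rw [← (clear_sub P2 .white).eq_of_ne (by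
            show move t x .white p ≠ none
            rw [hp]; simp)]
          exact hp
        constructor
        · apply hP1b
          rw [← (clear_sub P1 _).eq_of_ne (by rw [← hP2, hp2]; simp), ← hP2, hp2]
        · intro h6
          rw [hdead p h6] at hp2
          exact absurd hp2 (by simp)

/-- All black stones can be removed, which leaves an empty interior point. -/
theorem kill_all (k : ℕ) : ∀ (t : Position M), Fight t → ∀ b, t b = some .black →
    (univ.filter fun p => t p = some .black).card = k →
    ∃ t', ReflTransGen TStep t t' ∧ (∀ p, t' p ≠ some .black) ∧ ∃ v, In v ∧ t' v = none := by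
  classical
  induction k using Nat.strong_induction_on with
  | _ k ih =>
    intro t ht b hb hk
    obtain ⟨t1, r1, r2, r3, r4⟩ := kill _ t ht b hb rfl
    by_cases h : ∃ b', t1 b' = some .black
    · obtain ⟨b', hb'⟩ := h
      have hlt : (univ.filter fun p => t1 p = some .black).card < k := by
        rw [← hk]
        apply card_lt_card
        rw [Finset.ssubset_iff_of_subset]
        · exact ⟨b, by simp [hb], by simp [r3]⟩
        · intro z hz
          rw [mem_filter] at hz ⊢
          exact ⟨mem_univ _, (r4 z hz.2).1⟩
      obtain ⟨t', q1, q2, q3⟩ := ih _ hlt t1 r2 b' hb' rfl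
      exact ⟨t', r1.trans q1, q2, q3⟩
    · push Not at h
      exact ⟨t1, r1, h, b, ht.2.1 b hb, r3⟩

/-- All points white except `v`, which is empty. -/
def posW (v : Point M) : Position M := fun p => if p = v then none else some .white

/-- Only a black stone at `v`. -/
def posE (v : Point M) : Position M := fun p => if p = v then some .black else none

theorem legal_posW (v : Point M) : Legal (posW v) := by
  have key : ∀ k : ℕ, ∀ p : Point M, p ≠ v →
      ((p.1 : ℕ) - v.1) + ((v.1 : ℕ) - p.1) + (((p.2 : ℕ) - v.2) + ((v.2 : ℕ) - p.2)) = k →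
      HasLiberty (posW v) p := by
    intro k
    induction k using Nat.strong_induction_on with
    | _ k ih =>
      intro p hp hk
      have b1 := p.1.2
      have b2 := p.2.2
      have c1 := v.1.2
      have c2 := v.2.2
      obtain ⟨q, hq1, hq2⟩ : ∃ q : Point M, Adj p q ∧
          ((q.1 : ℕ) - v.1) + ((v.1 : ℕ) - q.1) + (((q.2 : ℕ) - v.2) + ((v.2 : ℕ) - q.2)) < k := by
        have hne : (p.1 : ℕ) ≠ v.1 ∨ (p.2 : ℕ) ≠ v.2 := by
          by_contra hcon
          push Not at hcon
          exact hp (Prod.ext (Fin.ext hcon.1) (Fin.ext hcon.2))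
        by_cases h1 : (p.1 : ℕ) < v.1
        · refine ⟨(⟨(p.1 : ℕ) + 1, by omega⟩, p.2), Or.inr ⟨rfl, Or.inl rfl⟩, ?_⟩
          simp only; omega
        by_cases h2 : (v.1 : ℕ) < p.1
        · refine ⟨(⟨(p.1 : ℕ) - 1, by omega⟩, p.2), Or.inr ⟨rfl, Or.inr ?_⟩, ?_⟩
          · simp only; omega
          · simp only; omega
        by_cases h3 : (p.2 : ℕ) < v.2
        · refine ⟨(p.1, ⟨(p.2 : ℕ) + 1, by omega⟩), Or.inl ⟨rfl, Or.inl rfl⟩, ?_⟩
          simp only; omega
        · refine ⟨(p.1, ⟨(p.2 : ℕ) - 1, by omega⟩), Or.inl ⟨rfl, Or.inr ?_⟩, ?_⟩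
          · simp only; omega
          · simp only; omega
      by_cases hqv : q = v
      · subst hqv
        exact HasLiberty.of_empty hq1 (by simp [posW])
      · exact HasLiberty.of_adj hq1 (by simp [posW, hp, hqv]) (ih _ hq2 q hqv rfl)
  intro p hp
  apply key _ p _ rfl
  rintro rfl
  simp [posW] at hp

theorem good_posW (v : Point M) : Good (posW v) := by
  intro p hp
  unfold posW at hp
  split_ifs at hp
  simp at hp

theorem sub_posW {t : Position M} {v : Point M} (h : ∀ p, t p ≠ some .black) (hv : t v = none) :
    Sub t (posW v) := by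
  intro p
  by_cases hp : p = v
  · right; rw [hp, hv]
  · rcases hc : t p with _ | c
    · exact Or.inr rfl
    · left
      cases c
      · exact absurd hc (h p)
      · simp [posW, hp]

theorem posE_liberty {v : Point M} (hv : In v) : HasLiberty (posE v) v := by
  obtain ⟨h1, h2, h3, h4⟩ := hv
  refine HasLiberty.of_empty (y := (v.1, ⟨(v.2 : ℕ) - 1, by omega⟩)) (Or.inl ⟨rfl, Or.inr ?_⟩) ?_
  · simp only; omega
  · unfold posE
    rw [if_neg]
    intro h
    have := congrArg (fun p : Point M => (p.2 : ℕ)) h
    simp only at this
    omega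

theorem posW_to_posE {v : Point M} (hv : In v) : TStep (posW v) (posE v) := by
  refine ⟨v, .black, by simp [posW], fun _ => hv, ?_⟩
  have e1 : clear (Function.update (posW v) v (some .black)) Color.black.other = posE v := by
    funext p
    by_cases hp : p = v
    · subst hp
      rw [clear_of_other (d := .black) (by rw [Function.update_self]) (by decide)]
      simp [posE]
    · rw [clear_of_noLiberty]
      · simp [posE, hp]
      · rw [Function.update_of_ne hp]
        simp [posW, hp, Color.other]
      · rintro ⟨q, r, _, _, h⟩
        by_cases hr : r = v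
        · subst hr
          rw [Function.update_self] at h
          exact absurd h (by simp)
        · rw [Function.update_of_ne hr] at h
          simp [posW, hr] at h
  unfold move
  rw [e1]
  funext p
  by_cases hp : p = v
  · subst hp
    rw [clear_of_liberty (posE_liberty hv)]
  · symm
    rw [(clear_sub (posE v) _).empty (p := p) (by simp [posE, hp])]
    simp [posE, hp]

open Classical in
/-- A black stone at `v` surrounded by white stones except for the point `ρ`. -/
noncomputable def posX (v ρ : Point M) : Position M :=
  fun p => if p = v then some .black else if Adj v p ∧ p ≠ ρ then some .white else none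

theorem posE_to_posW {v w : Point M} (hv : In v) (hvw : v ≠ w) (hadj : ¬ Adj v w) :
    ReflTransGen TStep (posE v) (posW w) := by
  classical
  obtain ⟨i1, i2, i3, i4⟩ := id hv
  set ρ : Point M := (v.1, ⟨(v.2 : ℕ) + 1, i4⟩) with hρ
  have hvρ : Adj v ρ := Or.inl ⟨rfl, Or.inl rfl⟩
  have hρv : ρ ≠ v := hvρ.ne.symm
  have hXρ : posX v ρ ρ = none := by simp [posX, hρv]
  have hXv : posX v ρ v = some .black := by simp [posX]
  have hgood : Good (posX v ρ) := by
    intro p hp
    unfold posX at hp
    split_ifs at hp with h1 h2
    · rw [h1]; exact hv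
    · simp at hp
  have hlegal : Legal (posX v ρ) := by
    intro p hp
    by_cases hpv : p = v
    · subst hpv
      exact HasLiberty.of_empty hvρ hXρ
    have hvp : Adj v p := by
      by_contra hcon
      simp [posX, hpv, hcon] at hp
    have b1 := p.1.2
    have b2 := p.2.2
    rcases hvp with ⟨e1, e2⟩ | ⟨e1, e2⟩
    · have e1' : (v.1 : ℕ) = p.1 := by rw [e1]
      refine HasLiberty.of_empty (y := (⟨(p.1 : ℕ) - 1, by omega⟩, p.2)) (Or.inr ⟨rfl, Or.inr ?_⟩) ?_
      · simp only; omega
      · unfold posX
        rw [if_neg, if_neg]
        · rintro ⟨⟨f1, f2⟩ | ⟨f1, f2⟩, _⟩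
          · have := congrArg Fin.val f1; simp only at this; omega
          · have := congrArg Fin.val f1; simp only at this; omega
        · intro h
          have := congrArg (fun p : Point M => (p.1 : ℕ)) h
          simp only at this
          omega
    · have e1' : (v.2 : ℕ) = p.2 := by rw [e1]
      refine HasLiberty.of_empty (y := (p.1, ⟨(p.2 : ℕ) - 1, by omega⟩)) (Or.inl ⟨rfl, Or.inr ?_⟩) ?_
      · simp only; omega
      · unfold posX
        rw [if_neg, if_neg]
        · rintro ⟨⟨f1, f2⟩ | ⟨f1, f2⟩, _⟩
          · have := congrArg Fin.val f1; simp only at this; omega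
          · have := congrArg Fin.val f1; simp only at this; omega
        · intro h
          have := congrArg (fun p : Point M => (p.2 : ℕ)) h
          simp only at this
          omega
  have hsub : Sub (posE v) (posX v ρ) := by
    intro p
    by_cases hp : p = v
    · left; simp [posE, posX, hp]
    · right; simp [posE, hp]
  have hstep : TStep (posX v ρ) (move (posX v ρ) ρ .white) :=
    ⟨ρ, .white, hXρ, fun h => by simp at h, rfl⟩
  refine (reach_of_sub hsub hlegal hgood).trans (ReflTransGen.head hstep ?_)
  -- after the capture
  set P1 := Function.update (posX v ρ) ρ (some Color.white) with hP1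
  have hP1v : P1 v = some .black := by rw [hP1, Function.update_of_ne hρv.symm, hXv]
  have hP1a : ∀ p, Adj v p → P1 p = some .white := by
    intro p hp
    by_cases h : p = ρ
    · rw [h, hP1, Function.update_self]
    · rw [hP1, Function.update_of_ne h]
      unfold posX
      rw [if_neg hp.ne.symm, if_pos ⟨hp, h⟩]
  have hP1n : ∀ p, p ≠ v → ¬ Adj v p → P1 p = none := by
    intro p h1 h2
    rw [hP1, Function.update_of_ne (by rintro rfl; exact h2 hvρ)]
    unfold posX
    rw [if_neg h1, if_neg (fun h => h2 h.1)]
  set P2 := clear P1 Color.white.other with hP2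
  have hnl : ¬ HasLiberty P1 v := by
    rintro ⟨q, r, k1, k2, k3⟩
    have hqv : q = v := by
      have key : ∀ z, SameString P1 v z → z = v := by
        intro z hz
        induction hz with
        | refl => rfl
        | @tail a b _ hab ih =>
          exfalso
          rw [ih] at hab
          have h1 := hab.2
          rw [hP1v, hP1a b hab.1] at h1
          exact absurd h1 (by decide)
      exact key q k1
    rw [hqv] at k2
    rw [hP1a r k2] at k3
    exact absurd k3 (by simp)
  have hP2v : P2 v = none := clear_of_noLiberty hP1v hnl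
  have hsub2 : Sub (move (posX v ρ) ρ .white) P2 := clear_sub P2 _
  have hsub3 : Sub P2 P1 := clear_sub P1 _
  have hnb : ∀ p, P2 p ≠ some .black := by
    intro p hp
    by_cases hpv : p = v
    · rw [hpv, hP2v] at hp; exact absurd hp (by simp)
    · have h1 : P1 p = some .black := by rw [← hsub3.eq_of_ne (by rw [hp]; simp), hp]
      by_cases h2 : Adj v p
      · rw [hP1a p h2] at h1; exact absurd h1 (by decide)
      · rw [hP1n p hpv h2] at h1; exact absurd h1 (by simp)
  have hw : P2 w = none := hsub3.empty (hP1n w hvw.symm hadj)
  exact reach_of_sub (hsub2.trans (sub_posW hnb hw)) (legal_posW w) (good_posW w)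

theorem posE_to_posE (hM : 5 ≤ M) {v w : Point M} (hv : In v) (hw : In w) :
    ReflTransGen TStep (posE v) (posE w) := by
  have key : ∀ {v w : Point M}, In v → In w → v ≠ w → ¬ Adj v w →
      ReflTransGen TStep (posE v) (posE w) := by
    intro v w hv hw h1 h2
    exact (posE_to_posW hv h1 h2).tail (posW_to_posE hw)
  by_cases hvw : v = w
  · rw [hvw]
  by_cases hadj : Adj v w
  · obtain ⟨u, hu, h1, h2, h3, h4⟩ : ∃ u : Point M, In u ∧ v ≠ u ∧ ¬ Adj v u ∧ u ≠ w ∧
        ¬ Adj u w := by
      have far : ∀ a b : Point M, 2 ≤ ((a.1 : ℕ) - b.1) + ((b.1 : ℕ) - a.1) +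
          (((a.2 : ℕ) - b.2) + ((b.2 : ℕ) - a.2)) → a ≠ b ∧ ¬ Adj a b := by
        intro a b h
        constructor
        · rintro rfl; omega
        · rintro (⟨f1, f2⟩ | ⟨f1, f2⟩)
          · rw [f1] at h; omega
          · rw [f1] at h; omega
      obtain ⟨a1, a2, a3, a4⟩ := hv
      obtain ⟨b1, b2, b3, b4⟩ := hw
      have hd : ((v.1 : ℕ) - w.1) + ((w.1 : ℕ) - v.1) +
          (((v.2 : ℕ) - w.2) + ((w.2 : ℕ) - v.2)) = 1 := by
        rcases hadj with ⟨f1, f2⟩ | ⟨f1, f2⟩
        · rw [f1]; omega
        · rw [f1]; omega
      by_cases hcase : ((v.1 : ℕ) - 1) + ((v.2 : ℕ) - 1) < 2 ∨ ((w.1 : ℕ) - 1) + ((w.2 : ℕ) - 1) < 2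
      · have k1 := far v (⟨3, by omega⟩, ⟨3, by omega⟩) (by simp only; omega)
        have k2 := far (⟨3, by omega⟩, ⟨3, by omega⟩) w (by simp only; omega)
        refine ⟨(⟨3, by omega⟩, ⟨3, by omega⟩), ⟨?_, ?_, ?_, ?_⟩, k1.1, k1.2, k2.1, k2.2⟩ <;>
          simp only <;> omega
      · have k1 := far v (⟨1, by omega⟩, ⟨1, by omega⟩) (by simp only; omega)
        have k2 := far (⟨1, by omega⟩, ⟨1, by omega⟩) w (by simp only; omega)
        refine ⟨(⟨1, by omega⟩, ⟨1, by omega⟩), ⟨?_, ?_, ?_, ?_⟩, k1.1, k1.2, k2.1, k2.2⟩ <;>
          simp only <;> omega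
    exact (key hv hu h1 h2).trans (key hu hw h3 h4)
  · exact key hv hw hvw hadj

/-- From a fighting position with a black stone every position with a single black stone in the
interior can be reached. -/
theorem fight_to_posE (hM : 5 ≤ M) {t : Position M} (ht : Fight t) {b : Point M}
    (hb : t b = some .black) {w : Point M} (hw : In w) : ReflTransGen TStep t (posE w) := by
  obtain ⟨t', r1, r2, v, hv, r3⟩ := kill_all _ t ht b hb rfl
  exact ((r1.trans (reach_of_sub (sub_posW r2 r3) (legal_posW v) (good_posW v))).tail
    (posW_to_posE hv)).trans (posE_to_posE hM hv hw)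

theorem posE_to_fight {t : Position M} (ht : Fight t) {b : Point M} (hb : t b = some .black) :
    ReflTransGen TStep (posE b) t := by
  refine reach_of_sub ?_ ht.1 ht.2.1
  intro p
  by_cases hp : p = b
  · left; rw [hp, hb]; simp [posE]
  · right; simp [posE, hp]

end Pool.Agent.K4H71.Go
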